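import Pool.Agent.Helper69.QC.T1

/-!
Project QC: orders in a residue class for which both ends of the interval are attained.
-/

set_option autoImplicit false

namespace Pool.Agent.Helper69.QC

open Pool.Agent.Helper69.WV Pool.Agent.Helper53.BN Pool.Agent.Helper69.QB

/-- The designs with concurrence one of type `1^(q t w) (u w + 1)^1`. -/
theorem t4_base {m q w t u : ℕ} (hq : 2 ≤ q) (h0 : q ∈ RS m 1 w) (h1 : q + 1 ∈ RS m 1 w)
    (hT : TD (q + 1) t) (hu : u ≤ t) (ht : t ∈ RS m 1 w) (hw : w + 1 ∈ KS m 1) :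
    ∃ Q, DC m 1 Q (hol (q * (t * w)) 1 (u * w + 1)) := by
  obtain ⟨c0, hc0⟩ := DD.dc h0
  obtain ⟨c1, hc1⟩ := DD.dc h1
  obtain ⟨c2, hc2⟩ := nb_of_ks (ks_of_rs (fill1 glue) ht hw)
  have h2 := truncH (i := 0) hq hu hT hc0 hc0 (Or.inr (hol_succ hc1)) (Nat.zero_le _)
  rw [← mul_one (t * w)] at h2
  have h3 := fillH h2 ((hol_small le_rfl).2 hc2)
  exact ⟨_, h3⟩

theorem t4_pairs {m Q n h v : ℕ} (hm : 1 ≤ m) (hn : 1 ≤ n) (hv : v = n + h)
    (hQ : Q * (m * (m - 1)) = n * (n - 1) * 1 ^ 2 + 2 * (n * 1 * h)) :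
    (Q : ℝ) * ((C2 m : ℕ) : ℝ) = ((C2 v : ℕ) : ℝ) - ((C2 h : ℕ) : ℝ) := by
  have hQr : (Q : ℝ) * ((m : ℝ) * ((m : ℝ) - 1)) =
      (n : ℝ) * ((n : ℝ) - 1) + 2 * ((n : ℝ) * h) := by
    have h1 : ((Q * (m * (m - 1)) : ℕ) : ℝ) =
        ((n * (n - 1) * 1 ^ 2 + 2 * (n * 1 * h) : ℕ) : ℝ) := by
      rw [hQ]
    push_cast [Nat.cast_sub hm, Nat.cast_sub hn] at h1
    linarith
  rw [C2_cast, C2_cast, C2_cast, hv]
  push_cast
  linear_combination (1 / 2 : ℝ) * hQr

/-- There is a residue class such that for all large orders in this class the smallest and the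
largest number of blocks are exactly the bounds, and all numbers between them occur except a bounded
number near the ends. -/
theorem t4 (k l : ℕ) (hk : 3 ≤ k) (hl : 2 ≤ l) : ∃ w C v₀ : ℕ, 0 < w ∧ ∀ v, v₀ ≤ v →
    v ≡ 1 [MOD w] →
    (∀ b : ℕ, (l : ℝ) / (C2 k : ℝ) * ((C2 v : ℕ) : ℝ) + C ≤ b →
      (b : ℝ) ≤ beta k l * ((C2 v : ℕ) : ℝ) - C → NB k l v b) ∧
    (∃ b : ℕ, (b : ℝ) = (l : ℝ) / (C2 k : ℝ) * ((C2 v : ℕ) : ℝ) ∧ NB k l v b) ∧
    (∃ b : ℕ, (b : ℝ) = beta k l * ((C2 v : ℕ) : ℝ) ∧ NB k l v b) := by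
  obtain ⟨m, s0, s1, hmp, hm3, -, hs0, hs1, hs01, he0, he1⟩ := perfect_pair k l hk hl 3
  obtain ⟨q, hqp, hq3, hq2, -, hqK, hqR, hqR1, n1, hn1⟩ := rs_one m hmp.two_le 2 3 two_pos
  set w : ℕ := q - 1 with hw
  have hw0 : 0 < w := by omega
  have hwe : Even w := even_iff_two_dvd.2 hq2
  have hwK : w + 1 ∈ KS m 1 := by
    have : w + 1 = q := by omega
    rwa [this]
  set Δ : ℕ := s1 - s0 with hΔ
  have hΔp : 0 < Δ := by omega
  obtain ⟨q2, g, D, hq2p, hq2B, hg, hgD, hD, hDΔ⟩ := two_sizes k l hk hl Δ (q * w) hΔp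
  obtain ⟨nq, hnq⟩ := hTD (q + 1)
  obtain ⟨n2, hn2⟩ := hTD (q2 + 1)
  obtain ⟨v1, hv1⟩ := main k hk
  set U0 : ℕ := q2 * (n2 + v1 + Δ + 1) with hU0
  set U : ℕ := U0 + q * q2 with hU
  set R : ℕ := U * w + 1 with hR
  set F : ℕ := R * R * g + q2 * (l * R ^ 2) + Δ * D with hF
  set C : ℕ := F + l * R ^ 2 with hC
  set T : ℕ := nq + n1 + U + 1 with hT
  have hw2 : Nat.Coprime w q2 :=
    (Nat.Coprime.symm ((Nat.Prime.coprime_iff_not_dvd hq2p).2 fun hd => by
      have h1 := Nat.le_of_dvd hw0 hd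
      have h2 : w ≤ q * w := Nat.le_mul_of_pos_left _ hqp.pos
      omega))
  have hN2 : Nat.Coprime q q2 :=
    (Nat.Coprime.symm ((Nat.Prime.coprime_iff_not_dvd hq2p).2 fun hd => by
      have h1 := Nat.le_of_dvd hqp.pos hd
      have h2 : q ≤ q * w := Nat.le_mul_of_pos_right _ hw0
      omega))
  have hβ1 : beta k l ≤ l := by
    refine (beta_le k l (by omega)).trans (div_le_self (Nat.cast_nonneg _) ?_)
    have : (3 : ℝ) ≤ k := by exact_mod_cast hk
    linarith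
  have hβ0 : 0 ≤ beta k l := le_trans (Nat.cast_nonneg _) (beta_ge k l (by omega))
  refine ⟨w, C, w * (U + q * T) + n1 * w + 2, hw0, fun v hv hvw => ?_⟩
  obtain ⟨x, hx⟩ := (Nat.modEq_iff_dvd' (by omega : 1 ≤ v)).1 hvw.symm
  have hvx : v = w * x + 1 := by omega
  refine ⟨fun b hb1 hb2 => ?_, ?_⟩
  · obtain ⟨u, hu1, hu2, hu3, hu4⟩ := pick_u2 (w := w) (N := q) (q := q2) (c := 1) (x := x)
      (U0 := U0) hqp.pos hq2p hw2 hN2
    have huU : u ≤ U := hu2.le
    have hux : u ≤ x := by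
      by_contra hcon
      have h1 : w * x ≤ w * U := Nat.mul_le_mul_left _ (by omega)
      have h2 : w * U ≤ w * (U + q * T) := Nat.mul_le_mul_left _ (Nat.le_add_right _ _)
      omega
    obtain ⟨t, ht⟩ := (Nat.modEq_iff_dvd' hux).1 hu3
    have hxt : x = u + q * t := by omega
    have htT : T ≤ t := by
      by_contra hcon
      have h1 : q * t ≤ q * T := Nat.mul_le_mul_left _ (not_le.1 hcon).le
      have h2 : w * x ≤ w * (U + q * T) := Nat.mul_le_mul_left _ (by omega)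
      omega
    have hvt : v = q * (t * w) + (u * w + 1) := by
      rw [hvx, hxt]
      ring
    obtain ⟨n, hn⟩ := hu4
    have hnn : n2 + v1 + Δ + 1 ≤ n := by
      have h1 : q2 * (n2 + v1 + Δ + 1) ≤ q2 * n := by
        rw [← hn]
        have h2 : u ≤ w * u := Nat.le_mul_of_pos_left _ hw0
        omega
      exact Nat.le_of_mul_le_mul_left h1 hq2p.pos
    have hadmn : Adm k l n := by
      have hodd : Odd (w * u + 1) := (hwe.mul_right u).add_one
      rw [hn] at hodd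
      exact Or.inr (Even.mul_left ((Nat.odd_mul.1 hodd).2.tsub_odd odd_one) _)
    obtain ⟨c, hc⟩ := nb_of_ks (hv1 n (by omega) l hl hadmn)
    obtain ⟨Q, hQ⟩ := t4_base hqp.two_le hqR hqR1 (hnq t (by omega)) (by omega : u ≤ t)
      (hn1 t (by omega)) hwK
    have hcount := count_hol hQ
    have hR1 : u * w + 1 ≤ R := by
      have := Nat.mul_le_mul_right w huU
      omega
    have hn0 : 1 ≤ q * (t * w) := Nat.mul_pos hqp.pos (Nat.mul_pos (by omega) hw0)
    have hpairs := t4_pairs (m := m) (Q := Q) (n := q * (t * w)) (h := u * w + 1) (v := v)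
      hmp.one_le hn0 hvt hcount
    have hCh : ((C2 (u * w + 1) : ℕ) : ℝ) ≤ (R : ℝ) ^ 2 := by
      have h1 : ((u * w + 1 : ℕ) : ℝ) ≤ R := by exact_mod_cast hR1
      have h2 : (0 : ℝ) ≤ ((u * w + 1 : ℕ) : ℝ) := Nat.cast_nonneg _
      rw [C2_cast]
      nlinarith
    have hCh0 : (0 : ℝ) ≤ ((C2 (u * w + 1) : ℕ) : ℝ) := Nat.cast_nonneg _
    set T0 : ℕ := Q * s0 + (n * n * g + q2 * c) with hT0
    have hlow : ((T0 + Δ * D : ℕ) : ℝ) ≤ (b : ℝ) := by
      refine le_trans ?_ hb1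
      have hnK : n ≤ R := by
        have h3 : n ≤ q2 * n := Nat.le_mul_of_pos_left _ hq2p.pos
        have h4 : w * u + 1 = u * w + 1 := by ring
        omega
      have hcb : c ≤ l * R ^ 2 :=
        (nb_bound hc).trans (Nat.mul_le_mul_left _ (Nat.pow_le_pow_left hnK 2))
      have e1 : n * n * g ≤ R * R * g := Nat.mul_le_mul_right _ (Nat.mul_le_mul hnK hnK)
      have e2 : q2 * c ≤ q2 * (l * R ^ 2) := Nat.mul_le_mul_left _ hcb
      have e4 : n * n * g + q2 * c + Δ * D ≤ C := by omega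
      have e4' : ((n * n * g + q2 * c + Δ * D : ℕ) : ℝ) ≤ (C : ℝ) := by exact_mod_cast e4
      have e5 : ((T0 + Δ * D : ℕ) : ℝ) =
          (Q : ℝ) * s0 + ((n * n * g + q2 * c + Δ * D : ℕ) : ℝ) := by
        rw [hT0]
        push_cast
        ring
      have e6 : (Q : ℝ) * s0 ≤ (l : ℝ) / (C2 k : ℝ) * ((C2 v : ℕ) : ℝ) := by
        have h1 : (0 : ℝ) ≤ (l : ℝ) / (C2 k : ℝ) := by positivity
        have h2 : (Q : ℝ) * s0 = (l : ℝ) / (C2 k : ℝ) * ((Q : ℝ) * ((C2 m : ℕ) : ℝ)) := by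
          rw [he0]
          ring
        rw [h2, hpairs]
        exact mul_le_mul_of_nonneg_left (by linarith) h1
      rw [e5]
      linarith
    have hhigh : (b : ℝ) ≤ ((T0 + Q * Δ : ℕ) : ℝ) := by
      refine hb2.trans ?_
      have e1 : Q * s1 ≤ T0 + Q * Δ := by
        have h1 : s1 = s0 + Δ := by omega
        rw [h1, mul_add, hT0]
        omega
      have e2 : ((Q * s1 : ℕ) : ℝ) ≤ ((T0 + Q * Δ : ℕ) : ℝ) := by exact_mod_cast e1
      refine le_trans ?_ e2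
      have e3 : ((Q * s1 : ℕ) : ℝ) = beta k l * ((Q : ℝ) * ((C2 m : ℕ) : ℝ)) := by
        push_cast
        rw [he1]
        ring
      have e5 : beta k l * ((C2 (u * w + 1) : ℕ) : ℝ) ≤ l * (R : ℝ) ^ 2 :=
        mul_le_mul hβ1 hCh hCh0 (Nat.cast_nonneg _)
      have e6 : ((l * R ^ 2 : ℕ) : ℝ) ≤ (C : ℝ) := by
        have : l * R ^ 2 ≤ C := by
          rw [hC]
          exact Nat.le_add_left _ _
        exact_mod_cast this
      rw [e3, hpairs]
      push_cast at e6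
      nlinarith
    have hlow' : T0 + Δ * D ≤ b := by exact_mod_cast hlow
    have hhigh' : b ≤ T0 + Q * Δ := by exact_mod_cast hhigh
    obtain ⟨i, j, hi, hj, hb⟩ := int_rep hΔp hDΔ hlow' hhigh'
    have hjn : j ≤ n * n := by
      have h1 : Δ ≤ n := by omega
      have h2 : n ≤ n * n := Nat.le_mul_of_pos_left _ (by omega)
      omega
    have hfill := hole_fill hq2p.two_le (hn2 n (by omega)) hg hgD hc hjn
    rw [← hn, mul_comm w u] at hfill
    have hfin := closeH (subst hQ hs0 hs1 hs01.le hi) hfill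
    rw [← hvt] at hfin
    refine DC.cast hfin ?_
    rw [hb, hT0, hΔ]
    ring
  · have hxn : n1 ≤ x := by
      by_contra hcon
      have h1 : w * x ≤ n1 * w := by
        rw [mul_comm w x]
        exact Nat.mul_le_mul_right _ (not_le.1 hcon).le
      omega
    have hvK : v ∈ KS m 1 := by
      have h1 := ks_of_rs (fill1 glue) (hn1 x hxn) hwK
      rwa [mul_comm x w, ← hvx] at h1
    obtain ⟨Q, hQ⟩ := nb_of_ks hvK
    have hcount := count_nb hQ
    have hpairs : (Q : ℝ) * ((C2 m : ℕ) : ℝ) = ((C2 v : ℕ) : ℝ) := by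
      have h1 : ((Q * (m * (m - 1)) : ℕ) : ℝ) = ((v * (v - 1) : ℕ) : ℝ) := by rw [hcount]
      push_cast [Nat.cast_sub hmp.one_le, Nat.cast_sub (by omega : 1 ≤ v)] at h1
      rw [C2_cast, C2_cast]
      linear_combination (1 / 2 : ℝ) * h1
    have h0 := subst (i := 0) hQ hs0 hs1 hs01.le (Nat.zero_le _)
    have h1 := subst (i := 0) hQ hs1 hs1 le_rfl (Nat.zero_le _)
    rw [zero_mul, Nat.add_zero] at h0 h1
    refine ⟨⟨_, ?_, h0⟩, ⟨_, ?_, h1⟩⟩
    · push_cast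
      rw [he0, ← hpairs]
      ring
    · push_cast
      rw [he1, ← hpairs]
      ring

end Pool.Agent.Helper69.QC
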