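import Pool.Agent.Helper53.BN.Defs

/-!
Project QC, piece LO: the local lower bound for the number of blocks.
-/

set_option autoImplicit false

namespace Pool.Agent.Helper69.QC

open Pool.Agent.Helper69.WV Pool.Agent.Helper53.BN

/-- The number of positions of a point in a block. -/
private noncomputable def Local_n {k : ℕ} {V : Type} (g : Fin k → V) (x : V) : ℕ := by
  classical exact ∑ i : Fin k, if g i = x then 1 else 0

private theorem Local_cc {k : ℕ} {V ι : Type} [Fintype ι] (f : ι → Fin k → V) (x y : V) :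
    cc f x y = ∑ b, Local_n (f b) x * Local_n (f b) y := by
  classical
  unfold cc
  rw [Nat.card_eq_fintype_card, Fintype.card_subtype, Finset.card_filter, Fintype.sum_prod_type]
  refine Finset.sum_congr rfl fun b _ => ?_
  rw [Fintype.sum_prod_type]
  unfold Local_n
  rw [Finset.sum_mul_sum]
  refine Finset.sum_congr rfl fun i _ => Finset.sum_congr rfl fun j _ => ?_
  by_cases h1 : f b i = x <;> by_cases h2 : f b j = y <;> simp [h1, h2]

private theorem Local_sum {k v : ℕ} (g : Fin k → Fin v) : ∑ x, Local_n g x = k := by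
  classical
  have h : ∀ x, Local_n g x = ∑ i : Fin k, if g i = x then 1 else 0 := fun x => by
    unfold Local_n
    refine Finset.sum_congr rfl fun i _ => ?_
    by_cases h : g i = x <;> simp [h]
  simp only [h]
  rw [Finset.sum_comm]
  simp

private theorem Local_le {k v : ℕ} (g : Fin k → Fin v) (x : Fin v) : Local_n g x ≤ k := by
  have h := Finset.single_le_sum (f := fun x => Local_n g x) (fun _ _ => Nat.zero_le _)
    (Finset.mem_univ x)
  rw [Local_sum] at h
  exact h

private theorem Local_two (n : ℕ) : 2 * (n * (n - 1) / 2) = n * (n - 1) :=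
  Nat.mul_div_cancel' (Nat.even_mul_pred_self n).two_dvd

/-- Proof. Let `f : ι → Fin k → Fin v` be the blocks, `n x b` the number of the positions of `x` in
the block `b`. For a point `x`: `l (v - 1) = ∑ y ≠ x, cc f x y = ∑ b, n x b * (k - n x b)` (the
triples `(b, i, j)` with `f b i = x`, `f b j ≠ x`). Let `e x = ∑ b, n x b * (n x b - 1) / 2`. Then
`2 e x + l (v - 1) = (k - 1) ∑ b, n x b`, so `d ≤ e x` by the assumption. The sum over all `x` is
`2 ∑ x, e x + l v (v - 1) = (k - 1) k b`, so `l v (v - 1) + 2 d v ≤ b k (k - 1)`. -/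
theorem nb_local {k l v b d : ℕ} (hk : 2 ≤ k) (hv : 1 ≤ v) (h : NB k l v b)
    (hd : ∀ e, e < d → ¬ (k - 1 ∣ 2 * e + l * (v - 1))) : l * C2 v + d * v ≤ b * C2 k := by
  classical
  obtain ⟨ι, hι, f, -, h2, -, rfl⟩ := h
  have : Fintype ι := Fintype.ofFinite ι
  rw [Nat.card_eq_fintype_card]
  let e : Fin v → ℕ := fun x => ∑ b, Local_n (f b) x * (Local_n (f b) x - 1) / 2
  -- the concurrences of a point
  have h3 : ∀ x : Fin v, l * (v - 1) = ∑ b, Local_n (f b) x * (k - Local_n (f b) x) := by
    intro x
    have h4 : ∑ y ∈ Finset.univ.erase x, cc f x y = l * (v - 1) := by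
      have h5 : ∀ y ∈ Finset.univ.erase x, cc f x y = l := fun y hy =>
        h2 x y (fun hxy => (Finset.mem_erase.1 hy).1 hxy.symm)
      rw [Finset.sum_congr rfl h5, Finset.sum_const, Finset.card_erase_of_mem (Finset.mem_univ x), Finset.card_univ,
        Fintype.card_fin, smul_eq_mul, mul_comm]
    rw [← h4]
    simp only [Local_cc]
    rw [Finset.sum_comm]
    refine Finset.sum_congr rfl fun b _ => ?_
    rw [← Finset.mul_sum]
    congr 1
    have h5 := Finset.add_sum_erase Finset.univ (fun y => Local_n (f b) y) (Finset.mem_univ x)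
    rw [Local_sum] at h5
    omega
  have h6 : ∀ x : Fin v, 2 * e x + l * (v - 1) = (k - 1) * ∑ b, Local_n (f b) x := by
    intro x
    change 2 * (∑ b, Local_n (f b) x * (Local_n (f b) x - 1) / 2) + l * (v - 1) = _
    rw [h3 x, Finset.mul_sum, ← Finset.sum_add_distrib, Finset.mul_sum]
    refine Finset.sum_congr rfl fun b _ => ?_
    rw [Local_two]
    have h7 := Local_le (f b) x
    generalize Local_n (f b) x = n at h7
    rcases Nat.eq_zero_or_pos n with h8 | h8
    · rw [h8]
      simp
    · obtain ⟨m, rfl⟩ : ∃ m, n = m + 1 := ⟨n - 1, by omega⟩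
      obtain ⟨t, rfl⟩ : ∃ t, k = m + 1 + t := ⟨k - (m + 1), by omega⟩
      have e1 : m + 1 - 1 = m := by omega
      have e2 : m + 1 + t - (m + 1) = t := by omega
      have e3 : m + 1 + t - 1 = m + t := by omega
      rw [e1, e2, e3]
      ring
  have h7 : ∀ x : Fin v, d ≤ e x := by
    intro x
    by_contra hc
    exact hd (e x) (not_le.1 hc) ⟨_, h6 x⟩
  have h8 : ∑ x : Fin v, (2 * e x + l * (v - 1)) = (k - 1) * (k * Fintype.card ι) := by
    rw [Finset.sum_congr rfl fun x _ => h6 x, ← Finset.mul_sum, Finset.sum_comm]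
    congr 1
    rw [Finset.sum_congr rfl fun b _ => Local_sum (f b), Finset.sum_const, Finset.card_univ,
      smul_eq_mul, mul_comm]
  have h9 : v * (2 * d + l * (v - 1)) ≤ (k - 1) * (k * Fintype.card ι) := by
    rw [← h8]
    have h10 : ∑ _x : Fin v, (2 * d + l * (v - 1)) ≤ ∑ x : Fin v, (2 * e x + l * (v - 1)) :=
      Finset.sum_le_sum fun x _ => by
        have := h7 x
        omega
    rw [Finset.sum_const, Finset.card_univ, Fintype.card_fin, smul_eq_mul] at h10
    exact h10
  have h10 : 2 * C2 v = v * (v - 1) := Local_two v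
  have h11 : 2 * C2 k = k * (k - 1) := Local_two k
  have h12 : 2 * (l * C2 v + d * v) ≤ 2 * (Fintype.card ι * C2 k) := by
    have e1 : 2 * (l * C2 v + d * v) = v * (2 * d + l * (v - 1)) := by
      calc 2 * (l * C2 v + d * v) = l * (2 * C2 v) + 2 * d * v := by ring
        _ = l * (v * (v - 1)) + 2 * d * v := by rw [h10]
        _ = v * (2 * d + l * (v - 1)) := by ring
    have e2 : 2 * (Fintype.card ι * C2 k) = (k - 1) * (k * Fintype.card ι) := by
      calc 2 * (Fintype.card ι * C2 k) = Fintype.card ι * (2 * C2 k) := by ring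
        _ = Fintype.card ι * (k * (k - 1)) := by rw [h11]
        _ = (k - 1) * (k * Fintype.card ι) := by ring
    rw [e1, e2]
    exact h9
  omega

end Pool.Agent.Helper69.QC
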