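import Pool.Agent.Helper53.BN.Glue

/-!
Project QC, piece ST: extending a design by blocks with the multiplicities `k - 1`, `1`.
-/

set_option autoImplicit false

namespace Pool.Agent.Helper69.QC

open Pool.Agent.Helper69.WV Pool.Agent.Helper53.BN

/-- `j` blocks on two points in which one point has the multiplicity `k - 1`:
`ι = Fin j`, `f b i = if i = 0 then 1 else 0`. -/
theorem nb_two {k : ℕ} (hk : 2 ≤ k) (j : ℕ) : NB k (j * (k - 1)) 2 j := by
  obtain ⟨n, rfl⟩ : ∃ n, k = n + 2 := ⟨k - 2, by omega⟩
  have hc : ∀ x y : Fin 2, x ≠ y → cc (fun (_ : Fin j) (i : Fin (n + 2)) => if i = 0 then (1 : Fin 2) else 0) x y =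
      j * (n + 2 - 1) := by
    intro x y hxy
    have e1 : Nat.card (Fin j × Fin (n + 1)) = j * (n + 2 - 1) := by simp
    rw [← e1]
    unfold cc
    have hx : (x = 1 ∧ y = 0) ∨ (x = 0 ∧ y = 1) := by omega
    rcases hx with ⟨rfl, rfl⟩ | ⟨rfl, rfl⟩
    · refine Nat.card_congr
        { toFun := fun p => (p.1.1, p.1.2.2.pred (fun h => by
            have := p.2.2
            beta_reduce at this
            rw [if_pos h] at this
            exact absurd this (by decide)))
          invFun := fun q => ⟨(q.1, 0, q.2.succ), if_pos rfl, if_neg (Fin.succ_ne_zero _)⟩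
          left_inv := ?_
          right_inv := ?_ }
      · rintro ⟨⟨a, i, i'⟩, h1, h2⟩
        have hi : i = 0 := by
          by_contra h
          beta_reduce at h1
          rw [if_neg h] at h1
          exact absurd h1 (by decide)
        subst hi
        simp
      · rintro ⟨a, i⟩
        simp
    · refine Nat.card_congr
        { toFun := fun p => (p.1.1, p.1.2.1.pred (fun h => by
            have := p.2.1
            beta_reduce at this
            rw [if_pos h] at this
            exact absurd this (by decide)))
          invFun := fun q => ⟨(q.1, q.2.succ, 0), if_neg (Fin.succ_ne_zero _), if_pos rfl⟩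
          left_inv := ?_
          right_inv := ?_ }
      · rintro ⟨⟨a, i, i'⟩, h1, h2⟩
        have hi : i' = 0 := by
          by_contra h
          beta_reduce at h2
          rw [if_neg h] at h2
          exact absurd h2 (by decide)
        subst hi
        simp
      · rintro ⟨a, i⟩
        simp
  refine ⟨Fin j, inferInstance, fun _ i => if i = 0 then 1 else 0, fun _ => ⟨0, 1, ?_⟩, hc,
    fun x y h1 h2 => absurd h2 h1, by simp⟩
  beta_reduce
  rw [if_pos rfl, if_neg (by simp)]
  decide

/-- Adding one point. -/
private theorem SubTriv_step {k l v b j : ℕ} (h2 : NB k l 2 j) (h : NB k l v b) :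
    NB k l (v + 1) (b + v * j) := by
  have hinj : ∀ i : Fin v, Function.Injective (![Fin.castSucc i, Fin.last v] : Fin 2 → Fin (v + 1)) := by
    intro i x y hxy
    have hne := (Fin.castSucc_lt_last i).ne
    fin_cases x <;> fin_cases y
    · rfl
    · exact absurd hxy hne
    · exact absurd hxy.symm hne
    · rfl
  let W : Option (Fin v) → Type := fun o => match o with
    | none => Fin v
    | some _ => Fin 2
  let e : ∀ o, W o → Fin (v + 1) := fun o => match o with
    | none => fun x : Fin v => Fin.castSucc x
    | some i => fun x : Fin 2 => (![Fin.castSucc i, Fin.last v] : Fin 2 → Fin (v + 1)) x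
  let c : Option (Fin v) → ℕ := fun o => match o with
    | none => b
    | some _ => j
  have he : ∀ o, Function.Injective (e o) := by
    rintro (_ | i)
    · exact Fin.castSucc_injective v
    · exact hinj i
  have key := glueC (k := k) (l := l) (γ := (id : Fin (v + 1) → Fin (v + 1)))
    (B := Option (Fin v)) (W := W) (J := W) (fun _ => id) e c he ?_ ?_ ?_
  · rw [Fintype.sum_option] at key
    have e1 : c none + ∑ i : Fin v, c (some i) = b + v * j := by
      show b + ∑ i : Fin v, j = b + v * j
      simp
    rw [e1] at key
    exact key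
  · rintro (_ | i)
    · exact h
    · exact h2
  · have hsome : ∀ (i : Fin v) (x' : Fin 2), e (some i) x' = Fin.castSucc i ∧ x' = 0 ∨
        e (some i) x' = Fin.last v ∧ x' = 1 := by
      intro i x'
      fin_cases x'
      · exact Or.inl ⟨rfl, rfl⟩
      · exact Or.inr ⟨rfl, rfl⟩
    intro x y hxy
    have hxy' : x ≠ y := hxy
    induction x using Fin.lastCases with
    | last =>
      induction y using Fin.lastCases with
      | last => exact absurd rfl hxy'
      | cast y =>
        refine ⟨some y, ⟨(1 : Fin 2), (0 : Fin 2), rfl, rfl, by simp⟩, ?_⟩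
        rintro (_ | i) ⟨x', y', hx', hy', hd⟩
        · exact absurd hx' (Fin.castSucc_lt_last (show Fin v from x')).ne
        · rcases hsome i y' with ⟨h3, -⟩ | ⟨h3, -⟩
          · rw [h3] at hy'
            rw [Fin.castSucc_injective v hy']
          · rw [h3] at hy'
            exact absurd hy'.symm (Fin.castSucc_lt_last y).ne
    | cast x =>
      induction y using Fin.lastCases with
      | last =>
        refine ⟨some x, ⟨(0 : Fin 2), (1 : Fin 2), rfl, rfl, by simp⟩, ?_⟩
        rintro (_ | i) ⟨x', y', hx', hy', hd⟩
        · exact absurd hy' (Fin.castSucc_lt_last (show Fin v from y')).ne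
        · rcases hsome i x' with ⟨h3, -⟩ | ⟨h3, -⟩
          · rw [h3] at hx'
            rw [Fin.castSucc_injective v hx']
          · rw [h3] at hx'
            exact absurd hx'.symm (Fin.castSucc_lt_last x).ne
      | cast y =>
        refine ⟨none, ⟨x, y, rfl, rfl, fun h3 => hxy' (by rw [show x = y from h3])⟩, ?_⟩
        rintro (_ | i) ⟨x', y', hx', hy', hd⟩
        · rfl
        · exfalso
          rcases hsome i x' with ⟨-, h3⟩ | ⟨h3, -⟩
          · rcases hsome i y' with ⟨-, h4⟩ | ⟨h4, -⟩
            · exact hd (h3.trans h4.symm)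
            · rw [h4] at hy'
              exact (Fin.castSucc_lt_last y).ne hy'.symm
          · rw [h3] at hx'
            exact (Fin.castSucc_lt_last x).ne hx'.symm
  · intro o x' y' hd h3
    exact hd (he o h3)

private theorem SubTriv_C2 (v : ℕ) : C2 (v + 1) = C2 v + v := by
  unfold C2
  have h1 := Finset.sum_range_id v
  have h2 := Finset.sum_range_id (v + 1)
  rw [Finset.sum_range_succ, h1] at h2
  exact h2.symm

/-- `glueC` on `Fin v` with the index type `Option {p : Fin v × Fin v // p.1 < p.2 ∧ n ≤ p.2}` (these
are `C2 v - C2 n` pairs: `C2 v` pairs `p.1 < p.2`, and `C2 n` of them have `p.2 < n`; `card` by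
induction on `v`, or from `Finset.card_powersetCard`/`Sym2`; `Nat.choose_two_right`); `none`: the
given design with `e = Fin.castLE hnv`; `some p`: `nb_two` with `j = l / (k - 1)`,
`e = ![p.1, p.2]`. -/
theorem sub_triv {k l n v b : ℕ} (hk : 2 ≤ k) (hkl : k - 1 ∣ l) (hnv : n ≤ v) (h : NB k l n b) :
    NB k l v (b + (C2 v - C2 n) * (l / (k - 1))) := by
  have h2 : NB k l 2 (l / (k - 1)) := by
    have h3 := nb_two hk (l / (k - 1))
    rwa [Nat.div_mul_cancel hkl] at h3
  induction v, hnv using Nat.le_induction with
  | base => simpa using h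
  | succ v hv ih =>
    have h3 := SubTriv_step h2 ih
    have h4 : C2 n ≤ C2 v := by
      clear h3 ih
      induction v, hv using Nat.le_induction with
      | base => exact le_rfl
      | succ v _ ih => exact ih.trans (by rw [SubTriv_C2]; exact Nat.le_add_right _ _)
    refine DC.cast h3 ?_
    rw [SubTriv_C2, add_assoc, ← add_mul]
    congr 2
    omega

end Pool.Agent.Helper69.QC
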