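import Pool.Agent.Helper69.QC.T2
import Pool.Agent.Helper69.QC.SubTriv

/-!
Project QC: concurrences divisible by `k - 1`: the upper end up to a constant.
-/

set_option autoImplicit false

namespace Pool.Agent.Helper69.QC

open Pool.Agent.Helper69.WV Pool.Agent.Helper53.BN Pool.Agent.Helper69.QB

theorem adm_of_dvd' {k l : ℕ} (hk : 1 ≤ k) (h : k - 1 ∣ l) (v : ℕ) : Adm k l v := by
  rcases Nat.even_or_odd k with h1 | h1
  · exact Or.inl h1
  · have h2 : Even (k - 1) := h1.tsub_odd odd_one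
    exact Or.inr ((even_iff_two_dvd.2 ((even_iff_two_dvd.1 h2).trans h)).mul_right _)

/-- For concurrences divisible by `k - 1`: all numbers of blocks from the upper bound minus
`C1 v` to the upper bound minus a constant. -/
theorem t3_top (k l : ℕ) (hk : 3 ≤ k) (hl : 2 ≤ l) (hkl : k - 1 ∣ l) (C1 : ℕ) :
    ∃ C v₀ : ℕ, ∀ v, v₀ ≤ v → ∀ b : ℕ,
    beta k l * ((C2 v : ℕ) : ℝ) - C1 * v ≤ b →
    (b : ℝ) ≤ beta k l * ((C2 v : ℕ) : ℝ) - C → NB k l v b := by
  obtain ⟨A1, v1, ht1⟩ := t1 k l hk hl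
  have hβ : beta k l = ((l / (k - 1) : ℕ) : ℝ) := by
    rw [beta_eq k l (by omega) hkl, Nat.cast_div hkl (by
      have : k - 1 ≠ 0 := by omega
      exact_mod_cast this), Nat.cast_sub (by omega)]
    simp
  set B : ℕ := A1 + C1 + 1 with hB
  have hlt := lt_beta k l hk hl
  obtain ⟨n0, hn0⟩ := quad ((beta k l - (l : ℝ) / (C2 k : ℝ)) / 2)
    ((beta k l - (l : ℝ) / (C2 k : ℝ)) / 2 + 2 * B) B (by linarith)
  set N : ℕ := v1 + n0 + 1 with hN
  refine ⟨B * (N + 1), 1, fun v hv b hb1 hb2 => ?_⟩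
  have hvr : (1 : ℝ) ≤ v := by exact_mod_cast hv
  -- the deficit
  have hble : b ≤ (l / (k - 1)) * C2 v := by
    have h1 : (b : ℝ) ≤ ((l / (k - 1) * C2 v : ℕ) : ℝ) := by
      push_cast
      rw [← hβ]
      have : (0 : ℝ) ≤ ((B * (N + 1) : ℕ) : ℝ) := Nat.cast_nonneg _
      linarith
    exact_mod_cast h1
  obtain ⟨d, hd⟩ := Nat.exists_eq_add_of_le hble
  have hdr : (d : ℝ) = beta k l * ((C2 v : ℕ) : ℝ) - b := by
    have h1 : ((l / (k - 1) * C2 v : ℕ) : ℝ) = ((b + d : ℕ) : ℝ) := by rw [hd]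
    rw [hβ]
    push_cast at h1 ⊢
    linarith
  have hd1 : B * (N + 1) ≤ d := by
    have h1 : ((B * (N + 1) : ℕ) : ℝ) ≤ (d : ℝ) := by
      rw [hdr]
      linarith
    exact_mod_cast h1
  have hd2 : d ≤ C1 * v := by
    have h1 : (d : ℝ) ≤ ((C1 * v : ℕ) : ℝ) := by
      rw [hdr]
      push_cast
      linarith
    exact_mod_cast h1
  have hBp : 0 < B := by omega
  set n : ℕ := d / B with hn
  have hn1 : N + 1 ≤ n := by
    rw [hn, Nat.le_div_iff_mul_le hBp, mul_comm]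
    exact hd1
  have hnv : n ≤ v := by
    rw [hn]
    refine Nat.div_le_of_le_mul (hd2.trans ?_)
    exact Nat.mul_le_mul_right _ (by omega)
  have hd3 : B * n ≤ d := Nat.mul_div_le d B
  have hd4 : d < B * (n + 1) := by
    exact Nat.lt_mul_div_succ d hBp
  set g : ℝ := beta k l - (l : ℝ) / (C2 k : ℝ) with hg
  have hq := hn0 n (by omega)
  have hBr : (0 : ℝ) ≤ B := Nat.cast_nonneg _
  have hA1B : (A1 : ℝ) ≤ B := by
    have : A1 ≤ B := by omega
    exact_mod_cast this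
  have hnr : (0 : ℝ) ≤ n := Nat.cast_nonneg _
  have hd3r : (B : ℝ) * n ≤ d := by exact_mod_cast hd3
  have hd4r : (d : ℝ) ≤ B * (n + 1) := by exact_mod_cast hd4.le
  have hgC : 2 * (B : ℝ) * n + B ≤ g * ((C2 n : ℕ) : ℝ) := by
    rw [C2_cast]
    nlinarith
  have hAn : (A1 : ℝ) * n ≤ B * n := mul_le_mul_of_nonneg_right hA1B hnr
  have hlowr : (l : ℝ) / (C2 k : ℝ) * ((C2 n : ℕ) : ℝ) + A1 * n ≤
      beta k l * ((C2 n : ℕ) : ℝ) - d := by
    have h1 : g * ((C2 n : ℕ) : ℝ) = beta k l * ((C2 n : ℕ) : ℝ) -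
        (l : ℝ) / (C2 k : ℝ) * ((C2 n : ℕ) : ℝ) := by
      rw [hg]
      ring
    linarith
  have hdle : d ≤ l / (k - 1) * C2 n := by
    have h1 : (0 : ℝ) ≤ (l : ℝ) / (C2 k : ℝ) * ((C2 n : ℕ) : ℝ) + A1 * n := by positivity
    have h2 : (d : ℝ) ≤ ((l / (k - 1) * C2 n : ℕ) : ℝ) := by
      push_cast
      rw [← hβ]
      linarith
    exact_mod_cast h2
  obtain ⟨b', hb'⟩ := Nat.exists_eq_add_of_le hdle
  have hb'r : (b' : ℝ) = beta k l * ((C2 n : ℕ) : ℝ) - d := by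
    have h1 : ((l / (k - 1) * C2 n : ℕ) : ℝ) = ((d + b' : ℕ) : ℝ) := by rw [hb']
    rw [hβ]
    push_cast at h1 ⊢
    linarith
  have hnb := ht1 n (by omega) (adm_of_dvd' (by omega) hkl n) b' (by rw [hb'r]; exact hlowr)
    (by rw [hb'r]; linarith)
  have hfin := sub_triv (by omega) hkl hnv hnb
  refine DC.cast hfin ?_
  have hCC : C2 n ≤ C2 v := by
    unfold C2
    exact Nat.div_le_div_right (Nat.mul_le_mul hnv (Nat.sub_le_sub_right hnv 1))
  obtain ⟨r, hr⟩ := Nat.exists_eq_add_of_le hCC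
  rw [hr] at hd ⊢
  rw [Nat.add_sub_cancel_left]
  have h1 : l / (k - 1) * (C2 n + r) = l / (k - 1) * C2 n + l / (k - 1) * r := mul_add _ _ _
  have h2 : r * (l / (k - 1)) = l / (k - 1) * r := mul_comm _ _
  omega

/-- The error at the lower end. -/
def err0 (k v C : ℕ) : ℕ := if k - 1 ∣ v - 1 then C else C * v

/-- The error at the upper end. -/
def err1 (k l v C : ℕ) : ℕ := if k - 1 ∣ l then C else C * v

/-- The theorem for fixed block size and concurrence. -/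
theorem fixed_sharp (k l : ℕ) (hk : 3 ≤ k) (hl : 2 ≤ l) : ∃ C v₀ : ℕ, ∀ v, v₀ ≤ v → Adm k l v →
    ∀ b : ℕ, (l : ℝ) / (C2 k : ℝ) * ((C2 v : ℕ) : ℝ) + err0 k v C ≤ b →
    (b : ℝ) ≤ beta k l * ((C2 v : ℕ) : ℝ) - err1 k l v C → NB k l v b := by
  obtain ⟨A1, v1, ht1⟩ := t1 k l hk hl
  obtain ⟨A2, v2, ht2⟩ := t2 k l hk hl
  have h3 : ∃ A3 v3 : ℕ, k - 1 ∣ l → ∀ v, v3 ≤ v → ∀ b : ℕ,
      beta k l * ((C2 v : ℕ) : ℝ) - (max A1 A2 : ℕ) * v ≤ b →
      (b : ℝ) ≤ beta k l * ((C2 v : ℕ) : ℝ) - A3 → NB k l v b := by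
    by_cases hkl : k - 1 ∣ l
    · obtain ⟨A3, v3, ht3⟩ := t3_top k l hk hl hkl (max A1 A2)
      exact ⟨A3, v3, fun _ => ht3⟩
    · exact ⟨0, 0, fun h => absurd h hkl⟩
  obtain ⟨A3, v3, ht3⟩ := h3
  set A : ℕ := max A1 A2 with hA
  refine ⟨max A A3, max v1 (max v2 v3) + 1, fun v hv hadm b hb1 hb2 => ?_⟩
  have hv1 : v1 ≤ v := by omega
  have hv2 : v2 ≤ v := by omega
  have hv3 : v3 ≤ v := by omega
  have hv0 : (0 : ℝ) ≤ v := Nat.cast_nonneg _
  have hA1 : (A1 : ℝ) ≤ A := by exact_mod_cast le_max_left _ _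
  have hA2 : (A2 : ℝ) ≤ A := by exact_mod_cast le_max_right _ _
  have hAC : (A : ℝ) ≤ (max A A3 : ℕ) := by exact_mod_cast le_max_left _ _
  have hA3 : (A3 : ℝ) ≤ (max A A3 : ℕ) := by exact_mod_cast le_max_right _ _
  have hA1v := mul_le_mul_of_nonneg_right hA1 hv0
  have hA2v := mul_le_mul_of_nonneg_right hA2 hv0
  have hACv := mul_le_mul_of_nonneg_right hAC hv0
  -- the upper end
  by_cases htop : beta k l * ((C2 v : ℕ) : ℝ) - (A : ℕ) * v ≤ b
  · by_cases hkl : k - 1 ∣ l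
    · refine ht3 hkl v hv3 b htop (hb2.trans ?_)
      rw [err1, if_pos hkl]
      linarith
    · rw [err1, if_neg hkl] at hb2
      push_cast at hb2 hACv htop
      by_cases hkv : k - 1 ∣ v - 1
      · refine ht2 v hv2 hkv b ?_ ?_
        · refine le_trans ?_ hb1
          rw [err0, if_pos hkv]
          linarith
        · linarith
      · refine ht1 v hv1 hadm b ?_ ?_
        · refine le_trans ?_ hb1
          rw [err0, if_neg hkv]
          push_cast
          linarith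
        · linarith
  · have htop' := (not_le.1 htop).le
    by_cases hkv : k - 1 ∣ v - 1
    · refine ht2 v hv2 hkv b ?_ ?_
      · refine le_trans ?_ hb1
        rw [err0, if_pos hkv]
        linarith
      · linarith
    · refine ht1 v hv1 hadm b ?_ ?_
      · refine le_trans ?_ hb1
        rw [err0, if_neg hkv]
        push_cast at hACv ⊢
        linarith
      · linarith

end Pool.Agent.Helper69.QC
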