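import Pool.Agent.Helper69.QC.ClA

/-!
Project QC, piece CB: a closed set which contains `m`, `m + 1` and meets all residue classes modulo
the powers of `m` contains all large integers.
-/

set_option autoImplicit false

namespace Pool.Agent.Helper69.QC

open Pool.Agent.Helper69.WV

/-- Proof. Let `J`, `X` be from `closed_ap` (`t0` from `hTD (m + 1)`). For every `r < m ^ (J + 1)`
choose `u r ∈ K` with `u r ≡ r`; let `U` be the maximum. For large `n` let `r = n % m ^ (J + 1)`,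
then `n - u r = m (m ^ J x)` and `x ≥ X`, `m ^ J x ≥ max U t0`: use `cTrunc` with
`t = m ^ J x ∈ K`, `u = u r`. -/
theorem closed_all {K : Set ℕ} (hK : Closed K) {m : ℕ} (hm : 2 ≤ m) (h0 : m ∈ K)
    (h1 : m + 1 ∈ K) (hinf : ∀ B, ∃ t ∈ K, B ≤ t)
    (hres : ∀ j r : ℕ, ∃ u ∈ K, u ≡ r [MOD m ^ j]) : ∃ n1, ∀ n, n1 ≤ n → n ∈ K := by
  obtain ⟨t0, hT⟩ := hTD (m + 1)
  obtain ⟨J, X, hX⟩ := closed_ap hK hm h0 h1 hT hinf
  choose u huK hu using hres (J + 1)
  have hP0 : 0 < m ^ (J + 1) := by positivity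
  have hJ0 : 0 < m ^ J := by positivity
  refine ⟨(Finset.range (m ^ (J + 1))).sup u +
    m ^ (J + 1) * (X + (Finset.range (m ^ (J + 1))).sup u + t0), fun n hn => ?_⟩
  generalize hU : (Finset.range (m ^ (J + 1))).sup u = U at hn
  have hr : n % m ^ (J + 1) < m ^ (J + 1) := Nat.mod_lt _ hP0
  have hur : u (n % m ^ (J + 1)) ≤ U := by
    rw [← hU]
    exact Finset.le_sup (f := u) (Finset.mem_range.2 hr)
  have hmod : u (n % m ^ (J + 1)) ≡ n [MOD m ^ (J + 1)] := (hu _).trans (Nat.mod_modEq n _)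
  have hu0 : u (n % m ^ (J + 1)) ∈ K := huK _
  generalize u (n % m ^ (J + 1)) = u' at hur hmod hu0
  have hle : u' ≤ n := hur.trans ((Nat.le_add_right _ _).trans hn)
  obtain ⟨x, hx⟩ := (Nat.modEq_iff_dvd' hle).1 hmod
  have hxX : X + U + t0 ≤ x := by
    refine Nat.le_of_mul_le_mul_left ?_ hP0
    omega
  have hmx : x ≤ m ^ J * x := Nat.le_mul_of_pos_left _ hJ0
  have key := cTrunc K hK m (m ^ J * x) u' h0 h1 (hX x (by omega)) hu0 (by omega)
    (hT _ (by omega))
  have h2 : m * (m ^ J * x) = m ^ (J + 1) * x := by ring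
  have h3 : m * (m ^ J * x) + u' = n := by omega
  rwa [h3] at key

end Pool.Agent.Helper69.QC
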