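import Pool.Agent.Helper69.WV.All

/-!
Project QC, piece CA: a closed set which contains `m`, `m + 1` and meets all residue classes modulo
the powers of `m` contains all large integers.
-/

set_option autoImplicit false

namespace Pool.Agent.Helper69.QC

open Pool.Agent.Helper69.WV

/-- Proof. `K` contains `0` and `1`. By `cTrunc`: (*) `t, u ∈ K`, `u ≤ t`, `t0 ≤ t` imply
`m t + u ∈ K`. Let `T ∈ K`, `T ≥ max t0 1`. By (*) with `u = 0`, `x ∈ K`, `x ≥ t0` imply
`m ^ j x ∈ K` for all `j`. Let `s' = m T`, `s = m T + 1`; both in `K` (`u = 0, 1`). Let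
`T3 = m ^ 3 T ∈ K`; `m s ≤ T3`.
(1) For all `n` and all `a + a' = n`: `m ^ n (T3 + a s' + a' s) ∈ K`: induction on `n`: if
`y = m ^ n x ∈ K` with `x ≥ T3`, then `m ^ (n+1) (x + s) = m y + m ^ (n+1) s` and
`m ^ (n+1) s ≤ m ^ n x` since `m s ≤ T3 ≤ x`; the same for `s'`. Hence also
`m ^ j (T3 + a s' + a' s) ∈ K` for all `j ≥ a + a'` (multiply with powers of `m`).
(2) Every `y ≥ s' ^ 2` is `a s' + a' s` with `a + a' = y / s'`: `a' = y % s'`.
So with `X = T3 + s' ^ 2`, `B1 = (m + 1) (X + m)`, `J = B1`: `m ^ J x ∈ K` for all `X ≤ x ≤ B1`.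
(3) For all `x ≥ X`: strong induction; if `x > B1` let `u = X + (x - X) % m` (`u ≡ x mod m`,
`X ≤ u < X + m`), `t = (x - u) / m`; `t ≥ X + m > u`; then
`m ^ J x = m (m ^ J t) + m ^ J u`, use (*). -/
theorem closed_ap {K : Set ℕ} (hK : Closed K) {m t0 : ℕ} (hm : 2 ≤ m) (h0 : m ∈ K)
    (h1 : m + 1 ∈ K) (hT : ∀ t, t0 ≤ t → TD (m + 1) t) (hinf : ∀ B, ∃ t ∈ K, B ≤ t) :
    ∃ J X : ℕ, ∀ x, X ≤ x → m ^ J * x ∈ K := by
  obtain ⟨T, hTK, hTB⟩ := hinf (max t0 1)
  have hTt0 : t0 ≤ T := le_trans (le_max_left _ _) hTB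
  have hT1 : 1 ≤ T := le_trans (le_max_right _ _) hTB
  have hz : 0 ∈ K := hK.1
  have ho : 1 ∈ K := hK.2.1
  have star : ∀ t u : ℕ, t ∈ K → u ∈ K → u ≤ t → t0 ≤ t → m * t + u ∈ K :=
    fun t u ht hu hut ht0 => cTrunc K hK m t u h0 h1 ht hu hut (hT t ht0)
  have hmp : ∀ j x : ℕ, x ≤ m ^ j * x := fun j x =>
    Nat.le_mul_of_pos_left x (Nat.pow_pos (by omega))
  have mulpow : ∀ j x : ℕ, x ∈ K → t0 ≤ x → m ^ j * x ∈ K := by
    intro j
    induction j with
    | zero => intro x hx _; simpa using hx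
    | succ j ih =>
      intro x hx hx0
      have h2 := star _ 0 (ih x hx hx0) hz (Nat.zero_le _) (le_trans hx0 (hmp j x))
      have h3 : m ^ (j + 1) * x = m * (m ^ j * x) + 0 := by ring
      rw [h3]; exact h2
  have hs'K : m * T ∈ K := by
    have := star T 0 hTK hz (Nat.zero_le _) hTt0
    simpa using this
  have hsK : m * T + 1 ∈ K := star T 1 hTK ho hT1 hTt0
  have hT3K : m ^ 3 * T ∈ K := mulpow 3 T hTK hTt0
  obtain ⟨s', hs'⟩ : ∃ s', s' = m * T := ⟨_, rfl⟩
  obtain ⟨T3, hT3⟩ : ∃ T3, T3 = m ^ 3 * T := ⟨_, rfl⟩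
  rw [← hs'] at hs'K hsK
  rw [← hT3] at hT3K
  have hs'T : T ≤ s' := by rw [hs']; exact Nat.le_mul_of_pos_left T (by omega)
  have hT3T : T ≤ T3 := by rw [hT3]; exact hmp 3 T
  have hms : m * (s' + 1) ≤ T3 := by
    rw [hs', hT3]
    have h2 : m * 1 ≤ m * (m * T) := Nat.mul_le_mul_left m (by nlinarith)
    have h3 : 2 * (m * (m * T)) ≤ m * (m * (m * T)) := Nat.mul_le_mul_right _ hm
    have h4 : m ^ 3 * T = m * (m * (m * T)) := by ring
    rw [h4, Nat.mul_add]
    omega
  have hms' : m * s' ≤ T3 := le_trans (Nat.mul_le_mul_left m (Nat.le_succ s')) hms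
  have step : ∀ n x s : ℕ, m ^ n * x ∈ K → T3 ≤ x → s ∈ K → t0 ≤ s → m * s ≤ T3 →
      m ^ (n + 1) * (x + s) ∈ K := by
    intro n x s hx hx3 hs hs0 hms
    have h2 : m ^ (n + 1) * s ≤ m ^ n * x := by
      have h3 : m ^ (n + 1) * s = m ^ n * (m * s) := by ring
      rw [h3]
      exact Nat.mul_le_mul_left _ (le_trans hms hx3)
    have h3 := star (m ^ n * x) (m ^ (n + 1) * s) hx (mulpow (n + 1) s hs hs0) h2
      (le_trans hTt0 (le_trans hT3T (le_trans hx3 (hmp n x))))
    have h4 : m ^ (n + 1) * (x + s) = m * (m ^ n * x) + m ^ (n + 1) * s := by ring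
    rw [h4]; exact h3
  have one : ∀ n a a' : ℕ, a + a' = n → m ^ n * (T3 + a * s' + a' * (s' + 1)) ∈ K := by
    intro n
    induction n with
    | zero =>
      intro a a' h
      have ha : a = 0 := by omega
      have ha' : a' = 0 := by omega
      subst ha; subst ha'
      simpa using hT3K
    | succ n ih =>
      intro a a' h
      rcases Nat.eq_zero_or_pos a' with h2 | h2
      · obtain ⟨b, rfl⟩ : ∃ b, a = b + 1 := ⟨a - 1, by omega⟩
        have h3 := ih b a' (by omega)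
        have h4 := step n _ s' h3 (by rw [Nat.add_assoc]; exact Nat.le_add_right _ _) hs'K
          (le_trans hTt0 hs'T) hms'
        have h5 : T3 + (b + 1) * s' + a' * (s' + 1) = T3 + b * s' + a' * (s' + 1) + s' := by ring
        rw [h5]; exact h4
      · obtain ⟨b, rfl⟩ : ∃ b, a' = b + 1 := ⟨a' - 1, by omega⟩
        have h3 := ih a b (by omega)
        have h4 := step n _ (s' + 1) h3 (by rw [Nat.add_assoc]; exact Nat.le_add_right _ _) hsK
          (le_trans hTt0 (le_trans hs'T (Nat.le_succ _))) hms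
        have h5 : T3 + a * s' + (b + 1) * (s' + 1) =
            T3 + a * s' + b * (s' + 1) + (s' + 1) := by ring
        rw [h5]; exact h4
  have hs'pos : 0 < s' := lt_of_lt_of_le hT1 hs'T
  obtain ⟨X, hX⟩ : ∃ X, X = T3 + s' * s' := ⟨_, rfl⟩
  obtain ⟨B1, hB1⟩ : ∃ B1, B1 = (m + 1) * (X + m) := ⟨_, rfl⟩
  have hB1' : X + m ≤ B1 := by rw [hB1]; exact Nat.le_mul_of_pos_left _ (by omega)
  have two : ∀ x, X ≤ x → x ≤ B1 → m ^ B1 * x ∈ K := by
    intro x hx1 hx2
    obtain ⟨y, rfl⟩ : ∃ y, x = T3 + y := ⟨x - T3, by omega⟩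
    have hy : s' * s' ≤ y := by omega
    have hq : s' ≤ y / s' := (Nat.le_div_iff_mul_le hs'pos).2 hy
    have hr : y % s' < s' := Nat.mod_lt y hs'pos
    obtain ⟨a, ha⟩ : ∃ a, y / s' = a + y % s' := ⟨y / s' - y % s', by omega⟩
    have h2 := one (y / s') a (y % s') ha.symm
    have h3 : T3 + a * s' + y % s' * (s' + 1) = T3 + y := by
      have h4 : s' * (y / s') + y % s' = y := Nat.div_add_mod y s'
      rw [ha] at h4
      have h5 : T3 + a * s' + y % s' * (s' + 1) = T3 + (s' * (a + y % s') + y % s') := by ring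
      rw [h5, h4]
    rw [h3] at h2
    have h6 : y / s' ≤ B1 := le_trans (Nat.div_le_self y s') (by omega)
    obtain ⟨c, hc⟩ : ∃ c, B1 = c + y / s' := ⟨B1 - y / s', by omega⟩
    have h7 := mulpow c _ h2 (le_trans hTt0 (le_trans hT3T (le_trans (Nat.le_add_right T3 y)
      (hmp _ _))))
    have h8 : m ^ B1 * (T3 + y) = m ^ c * (m ^ (y / s') * (T3 + y)) := by
      rw [hc, pow_add, mul_assoc]
    rw [h8]; exact h7
  refine ⟨B1, X, ?_⟩
  intro x
  induction x using Nat.strong_induction_on with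
  | _ x ih =>
    intro hx
    by_cases hxB : x ≤ B1
    · exact two x hx hxB
    · have hmpos : 0 < m := by omega
      have h2 : m * ((x - X) / m) + (x - X) % m = x - X := Nat.div_add_mod _ _
      have hr : (x - X) % m < m := Nat.mod_lt _ hmpos
      obtain ⟨q, hq⟩ : ∃ q, q = (x - X) / m := ⟨_, rfl⟩
      obtain ⟨r, hr'⟩ : ∃ r, r = (x - X) % m := ⟨_, rfl⟩
      rw [← hq, ← hr'] at h2
      rw [← hr'] at hr
      have h3 : m * (X + m) < m * q := by
        have h4 : B1 = m * (X + m) + (X + m) := by rw [hB1]; ring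
        omega
      have h5 : X + m < q := lt_of_mul_lt_mul_left h3 (Nat.zero_le m)
      have h6 : q < x := by
        have : q ≤ m * q := Nat.le_mul_of_pos_left q hmpos
        have hXpos : 0 < X := by
          rw [hX]
          have : 0 < s' * s' := Nat.mul_pos hs'pos hs'pos
          omega
        omega
      have h7 := ih q h6 (by omega)
      have h8 := two (X + r) (by omega) (by omega)
      have h9 := star _ _ h7 h8 (Nat.mul_le_mul_left _ (by omega))
        (le_trans hTt0 (le_trans hT3T (le_trans (by omega : T3 ≤ q) (hmp _ _))))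
      have h10 : m ^ B1 * x = m * (m ^ B1 * q) + m ^ B1 * (X + r) := by
        have : x = m * q + (X + r) := by omega
        rw [this]; ring
      rw [h10]; exact h9

end Pool.Agent.Helper69.QC
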