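import Pool.Agent.Helper69.QC.Sub
import Pool.Agent.Helper69.QB.Defs

/-!
Project QC, piece CN: the number of blocks of a design with concurrence one.
-/

set_option autoImplicit false

namespace Pool.Agent.Helper69.QC

open Pool.Agent.Helper69.WV Pool.Agent.Helper53.BN

private theorem Cnt_off (k : ℕ) : Nat.card {q : Fin k × Fin k // q.1 ≠ q.2} = k * (k - 1) := by
  classical
  rw [Nat.card_eq_fintype_card, Fintype.card_subtype]
  have h : (Finset.univ.filter fun q : Fin k × Fin k => q.1 ≠ q.2) =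
      (Finset.univ : Finset (Fin k)).offDiag := by
    ext q
    simp [Finset.mem_offDiag]
  rw [h, Finset.offDiag_card, Finset.card_univ, Fintype.card_fin, Nat.mul_sub, Nat.mul_one]

/-- Count the triples `(b, i, j)` with `i ≠ j` (`f b i ≠ f b j` by `block_inj`, and then
`γ (f b i) ≠ γ (f b j)`, since the concurrence in a group is `0`): there are `c k (k - 1)` of them,
and exactly one for every ordered pair of points in different groups. -/
theorem count_one {k c : ℕ} {V I : Type} [Finite V] {γ : V → I} (h : DC k 1 c γ) :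
    c * (k * (k - 1)) = Nat.card {p : V × V // γ p.1 ≠ γ p.2} := by
  obtain ⟨ι, hι, f, h1, h2, h3, h4⟩ := h
  have hinj := block_inj f h1 h2 h3
  have hg : ∀ b i j, i ≠ j → γ (f b i) ≠ γ (f b j) := by
    intro b i j hij he
    have hne : f b i ≠ f b j := fun h => hij (hinj b h)
    exact glue_none f _ _ (h3 _ _ hne he) b i j rfl rfl
  rw [← h4, ← Cnt_off k, ← Nat.card_prod]
  refine Nat.card_congr (Equiv.ofBijective
    (fun q : ι × {q : Fin k × Fin k // q.1 ≠ q.2} =>
      (⟨(f q.1 q.2.1.1, f q.1 q.2.1.2), hg q.1 _ _ q.2.2⟩ : {p : V × V // γ p.1 ≠ γ p.2}))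
    ⟨?_, ?_⟩)
  · rintro ⟨b, ⟨i, j⟩, hij⟩ ⟨b', ⟨i', j'⟩, hij'⟩ he
    simp only [Subtype.mk.injEq, Prod.mk.injEq] at he
    have hc : cc f (f b i) (f b j) = 1 := h2 _ _ (hg b i j hij)
    unfold cc at hc
    have hs := (Nat.card_eq_one_iff_unique.1 hc).1
    have := hs.elim ⟨(b, i, j), rfl, rfl⟩ ⟨(b', i', j'), he.1.symm, he.2.symm⟩
    simp only [Subtype.mk.injEq, Prod.mk.injEq] at this
    obtain ⟨rfl, rfl, rfl⟩ := this
    rfl
  · rintro ⟨⟨x, y⟩, hxy⟩
    have hc : cc f x y = 1 := h2 _ _ hxy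
    unfold cc at hc
    obtain ⟨⟨⟨b, i, j⟩, hi, hj⟩⟩ := (Nat.card_eq_one_iff_unique.1 hc).2
    simp only at hi hj
    subst hi hj
    exact ⟨(b, ⟨(i, j), fun h => hxy (by simp only at h; simp only [h])⟩), rfl⟩

/-- The number of ordered pairs of points in different groups of the type `w^n h^1`. -/
theorem card_hol (n w h : ℕ) : Nat.card {p : ((Fin n × Fin w) ⊕ Fin h) × ((Fin n × Fin w) ⊕ Fin h) //
    hol n w h p.1 ≠ hol n w h p.2} = n * (n - 1) * w ^ 2 + 2 * (n * w * h) := by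
  let e : {p : ((Fin n × Fin w) ⊕ Fin h) × ((Fin n × Fin w) ⊕ Fin h) //
      hol n w h p.1 ≠ hol n w h p.2} ≃
      ({q : Fin n × Fin n // q.1 ≠ q.2} × (Fin w × Fin w)) ⊕
        (((Fin n × Fin w) × Fin h) ⊕ (Fin h × (Fin n × Fin w))) :=
    { toFun := fun p => match p with
        | ⟨(Sum.inl x, Sum.inl y), hp⟩ =>
          Sum.inl (⟨(x.1, y.1), fun h => hp (congrArg some h)⟩, (x.2, y.2))
        | ⟨(Sum.inl x, Sum.inr y), _⟩ => Sum.inr (Sum.inl (x, y))
        | ⟨(Sum.inr x, Sum.inl y), _⟩ => Sum.inr (Sum.inr (x, y))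
        | ⟨(Sum.inr _, Sum.inr _), hp⟩ => absurd rfl hp
      invFun := fun q => match q with
        | Sum.inl (a, s) => ⟨(Sum.inl (a.1.1, s.1), Sum.inl (a.1.2, s.2)),
            fun h => a.2 (Option.some.inj h)⟩
        | Sum.inr (Sum.inl (x, y)) => ⟨(Sum.inl x, Sum.inr y), fun h => by simp [hol] at h⟩
        | Sum.inr (Sum.inr (x, y)) => ⟨(Sum.inr x, Sum.inl y), fun h => by simp [hol] at h⟩
      left_inv := by
        rintro ⟨⟨x | x, y | y⟩, hp⟩
        · rfl
        · rfl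
        · rfl
        · exact absurd rfl hp
      right_inv := by
        rintro (⟨a, s⟩ | ⟨x, y⟩ | ⟨x, y⟩) <;> rfl }
  rw [Nat.card_congr e, Nat.card_sum, Nat.card_sum, Nat.card_prod, Cnt_off]
  simp only [Nat.card_prod, Nat.card_fin]
  ring

theorem count_hol {k c n w h : ℕ} (hd : DC k 1 c (hol n w h)) :
    c * (k * (k - 1)) = n * (n - 1) * w ^ 2 + 2 * (n * w * h) := by
  rw [count_one hd, card_hol]

theorem count_nb {k c v : ℕ} (hd : NB k 1 v c) : c * (k * (k - 1)) = v * (v - 1) := by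
  rw [← Cnt_off v]
  exact count_one hd

end Pool.Agent.Helper69.QC
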