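import Pool.Agent.Helper53.BN.Defs

/-!
Project QC, piece CO: copies of a design with concurrence one.
-/

set_option autoImplicit false

namespace Pool.Agent.Helper69.QC

open Pool.Agent.Helper69.WV Pool.Agent.Helper53.BN

/-- The concurrence of the union of two families of blocks. -/
private theorem Copies_cc {k : ℕ} {V ι κ : Type} [Finite ι] [Finite κ] (f : ι → Fin k → V)
    (g : κ → Fin k → V) (x y : V) : cc (Sum.elim f g) x y = cc f x y + cc g x y := by
  unfold cc
  rw [← Nat.card_sum]
  refine Nat.card_congr ?_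
  exact
    { toFun := fun p => match p with
        | ⟨(Sum.inl b, q), hp⟩ => Sum.inl ⟨(b, q), hp⟩
        | ⟨(Sum.inr b, q), hp⟩ => Sum.inr ⟨(b, q), hp⟩
      invFun := fun p => match p with
        | Sum.inl p => ⟨(Sum.inl p.1.1, p.1.2), p.2⟩
        | Sum.inr p => ⟨(Sum.inr p.1.1, p.1.2), p.2⟩
      left_inv := by rintro ⟨⟨b | b, q⟩, hp⟩ <;> rfl
      right_inv := by rintro (p | p) <;> rfl }

/-- The union of two designs with the same groups. -/
private theorem Copies_add {k l l' b b' : ℕ} {V I : Type} {γ : V → I} (ha : DC k l b γ)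
    (hb : DC k l' b' γ) : DC k (l + l') (b + b') γ := by
  obtain ⟨ι, hι, f, h1, h2, h2', h5⟩ := ha
  obtain ⟨κ, hκ, g, h3, h4, h4', h6⟩ := hb
  refine ⟨ι ⊕ κ, inferInstance, Sum.elim f g, ?_, ?_, ?_, ?_⟩
  · rintro (b | b)
    · exact h1 b
    · exact h3 b
  · intro x y hxy
    rw [Copies_cc, h2 x y hxy, h4 x y hxy]
  · intro x y hne hxy
    rw [Copies_cc, h2' x y hne hxy, h4' x y hne hxy]
  · rw [Nat.card_sum, h5, h6]

/-- No blocks. -/
private theorem Copies_nil (k : ℕ) {V I : Type} (γ : V → I) : DC k 0 0 γ := by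
  refine ⟨Empty, inferInstance, fun b => b.elim, fun b => b.elim, ?_, ?_, by simp⟩
  · intro x y _
    exact cc_eq_zero _ _ _ fun b => b.elim
  · intro x y _ _
    exact cc_eq_zero _ _ _ fun b => b.elim

/-- `l` copies of a design with concurrence one (induction on `l` as in `nb_add`, `nb_mul` of
`Helper53/BN/Defs.lean`, for a general `γ`). -/
theorem copies {k c : ℕ} {V I : Type} {γ : V → I} (h : DC k 1 c γ) (l : ℕ) :
    DC k l (l * c) γ := by
  induction l with
  | zero =>
    rw [Nat.zero_mul]
    exact Copies_nil k γ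
  | succ l ih =>
    have h1 := Copies_add ih h
    rwa [← Nat.succ_mul] at h1

end Pool.Agent.Helper69.QC
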