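import Mathlib

/-!
Project QC, piece DK: a consequence of Dickson's lemma.
-/

set_option autoImplicit false

namespace Pool.Agent.Helper69.QC

/-- Dickson's lemma: the sums of the minimal elements. Let `S` be a set of functions `ι → ℕ`
(`ι` finite), `0 ∉ S`, such that `x, y ∈ S`, `x < y` imply `y - x ∈ S`. Let `f`, `g` be additive
(`f x = ∑ i, f' i * x i`, the same for `g`), `g x > 0` for all `x ∈ S`. Then `f x / g x` has a largest
value on `S` if `S` is not empty. Proof: the set of the minimal elements of `S` is an antichain, so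
finite (`Pi.isPWO`, or `Set.partiallyWellOrderedOn_iff_finite_antichains`); let `x₀` be one of them
with the largest value. For all `x ∈ S`: `f x * g x₀ ≤ f x₀ * g x`: strong induction on
`∑ i, x i`: let `y ≤ x` be a minimal element of `S`; if `y = x` clear, otherwise use `x - y`. -/
theorem dickson_max {ι : Type} [Fintype ι] (S : Set (ι → ℕ)) (hne : S.Nonempty)
    (hsub : ∀ x ∈ S, ∀ y ∈ S, x < y → y - x ∈ S) (f g : ι → ℕ)
    (hg : ∀ x ∈ S, 0 < ∑ i, g i * x i) :
    ∃ x₀ ∈ S, ∀ x ∈ S, (∑ i, f i * x i) * (∑ i, g i * x₀ i) ≤ (∑ i, f i * x₀ i) * ∑ i, g i * x i := by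
  classical
  have hfin : {x | Minimal (· ∈ S) x}.Finite :=
    (setOfPred_minimal_antichain _).finite_of_partiallyWellOrderedOn
      ((Set.isPWO_of_wellQuasiOrderedLE S).mono (setOfPred_minimal_subset _))
  have hne' : {x | Minimal (· ∈ S) x}.Nonempty := by
    obtain ⟨x, hx⟩ := exists_minimal_of_wellFoundedLT (· ∈ S) hne
    exact ⟨x, hx⟩
  obtain ⟨x₀, hx₀, hmax⟩ := Set.exists_max_image {x | Minimal (· ∈ S) x}
    (fun x => ((∑ i, f i * x i : ℕ) : ℚ) / ((∑ i, g i * x i : ℕ) : ℚ)) hfin hne'
  refine ⟨x₀, hx₀.1, ?_⟩
  have key : ∀ n : ℕ, ∀ x ∈ S, ∑ i, x i = n →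
      (∑ i, f i * x i) * (∑ i, g i * x₀ i) ≤ (∑ i, f i * x₀ i) * ∑ i, g i * x i := by
    intro n
    induction n using Nat.strong_induction_on with
    | _ n ih =>
      intro x hx hxn
      by_cases hmin : Minimal (· ∈ S) x
      · have h1 := hmax x hmin
        have h2 : (0 : ℚ) < ((∑ i, g i * x i : ℕ) : ℚ) := by exact_mod_cast hg x hx
        have h3 : (0 : ℚ) < ((∑ i, g i * x₀ i : ℕ) : ℚ) := by exact_mod_cast hg x₀ hx₀.1
        rw [div_le_div_iff₀ h2 h3] at h1
        exact_mod_cast h1
      · have hy : ∃ y ∈ S, y < x := by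
          by_contra hcon
          push Not at hcon
          refine hmin ⟨hx, fun y hy hyx => ?_⟩
          by_contra h4
          exact hcon y hy (lt_of_le_not_ge hyx h4)
        obtain ⟨y, hyS, hyx⟩ := hy
        have hle : ∀ i, y i ≤ x i := fun i => hyx.le i
        have hsum : ∑ i, x i = ∑ i, y i + ∑ i, (x - y) i := by
          rw [← Finset.sum_add_distrib]
          refine Finset.sum_congr rfl fun i _ => ?_
          have := hle i
          simp only [Pi.sub_apply]
          omega
        have hadd : ∀ h : ι → ℕ, ∑ i, h i * x i = ∑ i, h i * y i + ∑ i, h i * (x - y) i := by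
          intro h
          rw [← Finset.sum_add_distrib]
          refine Finset.sum_congr rfl fun i _ => ?_
          have := hle i
          simp only [Pi.sub_apply]
          rw [← mul_add]
          congr 1
          omega
        have hxy : x - y ∈ S := hsub y hyS x hx hyx
        have hpos : ∀ z ∈ S, 0 < ∑ i, z i := by
          intro z hz
          by_contra hcon
          have h0 : ∑ i, z i = 0 := by omega
          have h1 : ∀ i, z i = 0 := by
            intro i
            exact (Finset.sum_eq_zero_iff.1 h0) i (Finset.mem_univ i)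
          have h2 := hg z hz
          simp [h1] at h2
        have i1 := ih (∑ i, y i) (by have := hpos _ hxy; omega) y hyS rfl
        have i2 := ih (∑ i, (x - y) i) (by have := hpos _ hyS; omega) (x - y) hxy rfl
        rw [hadd f, hadd g, add_mul, mul_add]
        exact add_le_add i1 i2
  exact fun x hx => key _ x hx rfl

end Pool.Agent.Helper69.QC
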