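import Pool.Agent.Helper69.QC.HolA

/-!
Project QC, piece FT: filling the groups of a design of type `(a w)^n h^1`.
-/

set_option autoImplicit false

namespace Pool.Agent.Helper69.QC

open Pool.Agent.Helper69.WV Pool.Agent.Helper53.BN

private def FillT_f {M A W : Type} (p : M × (A × W)) : (M × A) × W := ((p.1, p.2.1), p.2.2)

private def FillT_g {M A W : Type} (i : M) (p : A × W) : (M × A) × W := ((i, p.1), p.2)

private theorem FillT_f_inj {M A W : Type} : Function.Injective (FillT_f (M := M) (A := A) (W := W)) := by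
  rintro ⟨i, a, w⟩ ⟨i', a', w'⟩ h
  simp only [FillT_f, Prod.mk.injEq] at h
  obtain ⟨⟨rfl, rfl⟩, rfl⟩ := h
  rfl

private theorem FillT_g_inj {M A W : Type} (i : M) :
    Function.Injective (FillT_g (M := M) (A := A) (W := W) i) := by
  rintro ⟨a, w⟩ ⟨a', w'⟩ h
  simp only [FillT_g, Prod.mk.injEq, true_and] at h
  obtain ⟨rfl, rfl⟩ := h
  rfl

/-- the pairs covered by the design number `b` -/
private def FillT_Cov {M A W H S : Type} (b : Option M) (x y : ((M × A) × W) ⊕ (H ⊕ S)) : Prop :=
  match b with
  | none => ∃ x' y' : (M × (A × W)) ⊕ H, Sum.map FillT_f Sum.inl x' = x ∧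
      Sum.map FillT_f Sum.inl y' = y ∧ holT M (A × W) H x' ≠ holT M (A × W) H y'
  | some i => ∃ x' y' : (A × W) ⊕ S, Sum.map (FillT_g i) Sum.inr x' = x ∧
      Sum.map (FillT_g i) Sum.inr y' = y ∧ holT A W S x' ≠ holT A W S y'

private theorem FillT_symm {M A W H S : Type} {b : Option M} {x y : ((M × A) × W) ⊕ (H ⊕ S)}
    (h : FillT_Cov b x y) : FillT_Cov b y x := by
  rcases b with _ | i
  · obtain ⟨x', y', h1, h2, h3⟩ := h
    exact ⟨y', x', h2, h1, h3.symm⟩
  · obtain ⟨x', y', h1, h2, h3⟩ := h
    exact ⟨y', x', h2, h1, h3.symm⟩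

private theorem FillT_left {M A W H S : Type} (i : M) (a : A) (w : W)
    (y : ((M × A) × W) ⊕ (H ⊕ S)) (hxy : some (i, a) ≠ holT (M × A) W (H ⊕ S) y) :
    ∃! b, FillT_Cov b (Sum.inl ((i, a), w)) y := by
  rcases y with ⟨⟨i', a'⟩, w'⟩ | h | s
  · have hne : (i, a) ≠ (i', a') := by
      intro e
      apply hxy
      simp [holT, e]
    by_cases hi : i = i'
    · subst hi
      have ha : a ≠ a' := fun e => hne (by rw [e])
      refine ⟨some i, ⟨Sum.inl (a, w), Sum.inl (a', w'), rfl, rfl, by simpa [holT] using ha⟩, ?_⟩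
      rintro (_ | j) hc
      · obtain ⟨x' | x', y' | y', h1, h2, h3⟩ := hc
        · obtain ⟨j, b, v⟩ := x'
          obtain ⟨j', b', v'⟩ := y'
          simp only [FillT_f, Sum.map_inl, Sum.inl.injEq, Prod.mk.injEq] at h1 h2
          obtain ⟨⟨rfl, rfl⟩, rfl⟩ := h1
          obtain ⟨⟨rfl, rfl⟩, rfl⟩ := h2
          exact absurd rfl h3
        · simp at h2
        · simp at h1
        · simp at h1
      · obtain ⟨x' | x', y', h1, -, -⟩ := hc
        · obtain ⟨b, v⟩ := x'
          simp only [FillT_g, Sum.map_inl, Sum.inl.injEq, Prod.mk.injEq] at h1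
          rw [h1.1.1]
        · simp at h1
    · refine ⟨none, ⟨Sum.inl (i, (a, w)), Sum.inl (i', (a', w')), rfl, rfl,
        by simpa [holT] using hi⟩, ?_⟩
      rintro (_ | j) hc
      · rfl
      · obtain ⟨x' | x', y' | y', h1, h2, -⟩ := hc
        · obtain ⟨b, v⟩ := x'
          obtain ⟨b', v'⟩ := y'
          simp only [FillT_g, Sum.map_inl, Sum.inl.injEq, Prod.mk.injEq] at h1 h2
          exact absurd (h1.1.1.symm.trans h2.1.1) hi
        · simp at h2
        · simp at h1
        · simp at h1
  · refine ⟨none, ⟨Sum.inl (i, (a, w)), Sum.inr h, rfl, rfl, by simp [holT]⟩, ?_⟩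
    rintro (_ | j) hc
    · rfl
    · obtain ⟨x', y' | y', -, h2, -⟩ := hc
      · simp at h2
      · simp at h2
  · refine ⟨some i, ⟨Sum.inl (a, w), Sum.inr s, rfl, rfl, by simp [holT]⟩, ?_⟩
    rintro (_ | j) hc
    · obtain ⟨x', y' | y', -, h2, -⟩ := hc
      · simp at h2
      · simp at h2
    · obtain ⟨x' | x', y', h1, -, -⟩ := hc
      · obtain ⟨b, v⟩ := x'
        simp only [FillT_g, Sum.map_inl, Sum.inl.injEq, Prod.mk.injEq] at h1
        rw [h1.1.1]
      · simp at h1

/-- Filling the groups, with additional points `S`: `glueC` with the index type `Option M`; for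
`none` the given design, `e = Sum.map (fun (i, (a, w)) => ((i, a), w)) Sum.inl`; for `some i` the
design of type `A × W`, `S`, with `e = Sum.map (fun (a, w) => ((i, a), w)) Sum.inr`. A pair of
points `((i, a), w)`, `((i', a'), w')` with `i ≠ i'`, or a pair of `((i, a), w)` and a point of `H`,
lies only in `none`; a pair with `i = i'`, `a ≠ a'`, or a pair of `((i, a), w)` and a point of `S`,
only in `some i`. -/
theorem fillT {k l c c' : ℕ} {M A W H S : Type} [Fintype M]
    (h1 : DC k l c (holT M (A × W) H)) (h2 : DC k l c' (holT A W S)) :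
    DC k l (c + Fintype.card M * c') (holT (M × A) W (H ⊕ S)) := by
  have hM : DC k l (∑ b : Option M, (match b with | none => c | some _ => c'))
      (holT (M × A) W (H ⊕ S)) := by
    refine glueC (B := Option M)
      (W := fun b => match b with | none => (M × (A × W)) ⊕ H | some _ => (A × W) ⊕ S)
      (J := fun b => match b with | none => Option M | some _ => Option A)
      (fun b => match b with | none => holT M (A × W) H | some _ => holT A W S)
      (fun b => match b with
        | none => Sum.map FillT_f Sum.inl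
        | some i => Sum.map (FillT_g i) Sum.inr)
      (fun b => match b with | none => c | some _ => c') ?_ ?_ ?_ ?_
    · rintro (_ | i)
      · exact Sum.map_injective.2 ⟨FillT_f_inj, Sum.inl_injective⟩
      · exact Sum.map_injective.2 ⟨FillT_g_inj i, Sum.inr_injective⟩
    · rintro (_ | i)
      · exact h1
      · exact h2
    · intro x y hxy
      have key : ∃! b, FillT_Cov b x y := by
        rcases x with ⟨⟨i, a⟩, w⟩ | x
        · exact FillT_left i a w y hxy
        · rcases y with ⟨⟨i, a⟩, w⟩ | y
          · obtain ⟨b, hb1, hb2⟩ := FillT_left (H := H) (S := S) i a w (Sum.inr x) hxy.symm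
            exact ⟨b, FillT_symm hb1, fun b' hb' => hb2 b' (FillT_symm hb')⟩
          · exact absurd rfl hxy
      obtain ⟨b, hb1, hb2⟩ := key
      refine ⟨b, ?_, ?_⟩
      · rcases b with _ | i
        · exact hb1
        · exact hb1
      · rintro (_ | j) hj
        · exact hb2 none hj
        · exact hb2 (some j) hj
    · rintro (_ | i) x' y' hne
      · rcases x' with ⟨j, b, v⟩ | x' <;> rcases y' with ⟨j', b', v'⟩ | y'
        · have hj : j ≠ j' := fun e => hne (by simp [holT, e])
          simp [holT, FillT_f, hj]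
        · simp [holT, FillT_f]
        · simp [holT, FillT_f]
        · exact absurd rfl hne
      · rcases x' with ⟨b, v⟩ | x' <;> rcases y' with ⟨b', v'⟩ | y'
        · have hj : b ≠ b' := fun e => hne (by simp [holT, e])
          simp [holT, FillT_g, hj]
        · simp [holT, FillT_g]
        · simp [holT, FillT_g]
        · exact absurd rfl hne
  rw [Fintype.sum_option] at hM
  simpa using hM

end Pool.Agent.Helper69.QC
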