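import Pool.Agent.Helper53.BN.TF
import Pool.Agent.Helper53.BN.Infl
import Pool.Agent.Helper69.QB.Defs

/-!
Project QC, piece HA: group divisible designs of type `w^n h^1`: changing the labels.

`hol n w h : (Fin n × Fin w) ⊕ Fin h → Option (Fin n)` (`Helper53/BN/Defs.lean`): `n` groups with
`w` points and one group with `h` points. All statements are `DC.congr` along obvious
equivalences (`finProdFinEquiv`, `finSumFinEquiv`, `Equiv.sumEmpty`, `Equiv.prodUnique`, ...).
-/

set_option autoImplicit false

namespace Pool.Agent.Helper69.QC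

open Pool.Agent.Helper69.WV Pool.Agent.Helper53.BN

/-- Type `w^n h^1` on arbitrary types. -/
def holT (M W H : Type) : (M × W) ⊕ H → Option M :=
  Sum.elim (fun p => some p.1) (fun _ => none)

theorem holT_iff {k l c : ℕ} {M W H : Type} [Finite M] [Finite W] [Finite H] :
    DC k l c (holT M W H) ↔ DC k l c (hol (Nat.card M) (Nat.card W) (Nat.card H)) := by
  let e : (M × W) ⊕ H ≃ (Fin (Nat.card M) × Fin (Nat.card W)) ⊕ Fin (Nat.card H) :=
    ((Finite.equivFin M).prodCongr (Finite.equivFin W)).sumCongr (Finite.equivFin H)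
  have key : ∀ x y, holT M W H x = holT M W H y ↔
      hol (Nat.card M) (Nat.card W) (Nat.card H) (e x) =
        hol (Nat.card M) (Nat.card W) (Nat.card H) (e y) := by
    rintro (x | x) (y | y) <;> simp [holT, hol, e]
  constructor
  · intro h
    exact h.congr e key
  · intro h
    refine h.congr e.symm fun x y => ?_
    have h1 := key (e.symm x) (e.symm y)
    rw [e.apply_symm_apply, e.apply_symm_apply] at h1
    exact h1.symm

theorem hol_zero {k l c n w : ℕ} : DC k l c (hol n w 0) ↔ NR k l w n c := by
  let e : (Fin n × Fin w) ⊕ Fin 0 ≃ Fin n × Fin w := Equiv.sumEmpty _ _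
  have key : ∀ x y, hol n w 0 x = hol n w 0 y ↔ (e x).1 = (e y).1 := by
    rintro (x | x) (y | y)
    · simp [hol, e]
    · exact y.elim0
    · exact x.elim0
    · exact x.elim0
  constructor
  · intro h
    exact h.congr e key
  · intro h
    refine DC.congr (γ := (Prod.fst : Fin n × Fin w → Fin n)) h e.symm fun x y => ?_
    have h1 := key (e.symm x) (e.symm y)
    rw [e.apply_symm_apply, e.apply_symm_apply] at h1
    exact h1.symm

theorem hol_succ {k l c n w : ℕ} (h : NR k l w (n + 1) c) : DC k l c (hol n w w) := by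
  let g : (Fin n × Fin w) ⊕ Fin w → Fin (n + 1) × Fin w :=
    Sum.elim (fun p => (p.1.castSucc, p.2)) (fun b => (Fin.last n, b))
  have hg : Function.Bijective g := by
    constructor
    · rintro (x | x) (y | y) hxy
      · simp only [g, Sum.elim_inl, Prod.mk.injEq, Fin.castSucc_inj] at hxy
        exact congrArg Sum.inl (Prod.ext hxy.1 hxy.2)
      · simp only [g, Sum.elim_inl, Sum.elim_inr, Prod.mk.injEq] at hxy
        exact absurd hxy.1 (Fin.castSucc_lt_last x.1).ne
      · simp only [g, Sum.elim_inl, Sum.elim_inr, Prod.mk.injEq] at hxy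
        exact absurd hxy.1 (Fin.castSucc_lt_last y.1).ne'
      · simp only [g, Sum.elim_inr, Prod.mk.injEq] at hxy
        exact congrArg Sum.inr hxy.2
    · rintro ⟨a, b⟩
      induction a using Fin.lastCases with
      | last => exact ⟨Sum.inr b, rfl⟩
      | cast a => exact ⟨Sum.inl (a, b), rfl⟩
  let e := Equiv.ofBijective g hg
  have key : ∀ x y, hol n w w x = hol n w w y ↔ (g x).1 = (g y).1 := by
    rintro (x | x) (y | y)
    · simp [hol, g]
    · simp only [hol, g, Sum.elim_inl, Sum.elim_inr, reduceCtorEq, false_iff]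
      exact (Fin.castSucc_lt_last x.1).ne
    · simp only [hol, g, Sum.elim_inl, Sum.elim_inr, reduceCtorEq, false_iff]
      exact (Fin.castSucc_lt_last y.1).ne'
    · simp [hol, g]
  refine DC.congr (γ := (Prod.fst : Fin (n + 1) × Fin w → Fin (n + 1))) h e.symm fun x y => ?_
  have h1 := key (e.symm x) (e.symm y)
  have h2 : ∀ z, g (e.symm z) = z := fun z => e.apply_symm_apply z
  rw [h2, h2] at h1
  exact h1.symm

theorem hol_small {k l c n h : ℕ} (hh : h ≤ 1) : DC k l c (hol n 1 h) ↔ NB k l (n + h) c := by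
  have hs : Subsingleton (Fin h) := Fin.subsingleton_iff_le_one.2 hh
  have key : ∀ x y, hol n 1 h x = hol n 1 h y ↔ id x = id y := by
    rintro (⟨x, x'⟩ | x) (⟨y, y'⟩ | y)
    · simp only [id, hol, Sum.elim_inl, Option.some.injEq, Sum.inl.injEq, Prod.mk.injEq]
      exact ⟨fun h => ⟨h, Subsingleton.elim _ _⟩, fun h => h.1⟩
    · simp [hol]
    · simp [hol]
    · simp only [id, hol, Sum.elim_inr, true_iff]
      exact congrArg _ (Subsingleton.elim _ _)
  have hcard : Nat.card ((Fin n × Fin 1) ⊕ Fin h) = n + h := by simp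
  rw [← hcard, ← DC_id_iff]
  exact ⟨fun h1 => h1.relabel key, fun h1 => DC.relabel h1 fun x y => (key x y).symm⟩

/-- Truncated transversal designs: `truncC` with the labels changed. -/
theorem truncH {k l m t u w h cB clo chi i : ℕ} (hm : 2 ≤ m) (hut : u ≤ t)
    (hT : TD (m + 1) t) (hlo : NR k l w m clo) (hhi : NR k l w m chi)
    (hB : u = 0 ∨ DC k l cB (hol m w h)) (hi : i ≤ t * (t - u)) :
    DC k l ((t * (t - u) - i) * clo + i * chi + u * t * cB) (hol m (t * w) (u * h)) := by
  have h1 : DC k l ((t * (t - u) - i) * clo + i * chi + u * t * cB)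
      (holT (Fin m) (Fin t × Fin w) (Fin u × Fin h)) := truncC hm hut hT hlo hhi hB hi
  have h2 := holT_iff.1 h1
  have e1 : Nat.card (Fin m) = m := by simp
  have e2 : Nat.card (Fin t × Fin w) = t * w := by simp
  have e3 : Nat.card (Fin u × Fin h) = u * h := by simp
  rw [e1, e2, e3] at h2
  exact h2

end Pool.Agent.Helper69.QC
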