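import Pool.Agent.Helper69.QC.FillT

/-!
Project QC, piece HB: filling the groups of a design of type `(a w)^n h^1`.
-/

set_option autoImplicit false

namespace Pool.Agent.Helper69.QC

open Pool.Agent.Helper69.WV Pool.Agent.Helper53.BN

/-- From `fillT` and `holT_iff`. -/
theorem fillH {k l n a w h s c c' : ℕ} (h1 : DC k l c (hol n (a * w) h))
    (h2 : DC k l c' (hol a w s)) : DC k l (c + n * c') (hol (n * a) w (h + s)) := by
  have e1 : ∀ m : ℕ, Nat.card (Fin m) = m := fun m => by simp
  have e2 : Nat.card (Fin a × Fin w) = a * w := by simp
  have e3 : Nat.card (Fin n × Fin a) = n * a := by simp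
  have e4 : Nat.card (Fin h ⊕ Fin s) = h + s := by simp
  have h1' : DC k l c (holT (Fin n) (Fin a × Fin w) (Fin h)) := by
    rw [holT_iff, e1, e1, e2]
    exact h1
  have h2' : DC k l c' (holT (Fin a) (Fin w) (Fin s)) := by
    rw [holT_iff, e1, e1, e1]
    exact h2
  have h3 := fillT h1' h2'
  rw [holT_iff, e1, e3, e4, Fintype.card_fin] at h3
  exact h3

/-- Filling the hole: `glueC` with two pieces (`Bool`): the given design, and the design on the hole
(`e = Sum.inr`). -/
theorem closeH {k l n h c c' : ℕ} (h1 : DC k l c (hol n 1 h)) (h2 : NB k l h c') :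
    NB k l (n + h) (c + c') := by
  have hcard : Nat.card ((Fin n × Fin 1) ⊕ Fin h) = n + h := by simp
  rw [← hcard, ← DC_id_iff]
  have hM : DC k l (∑ b : Bool, (match b with | true => c | false => c'))
      (id : (Fin n × Fin 1) ⊕ Fin h → (Fin n × Fin 1) ⊕ Fin h) := by
    refine glueC (B := Bool)
      (W := fun b => match b with | true => (Fin n × Fin 1) ⊕ Fin h | false => Fin h)
      (J := fun b => match b with | true => Option (Fin n) | false => Fin h)
      (fun b => match b with | true => hol n 1 h | false => id)
      (fun b => match b with | true => id | false => Sum.inr)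
      (fun b => match b with | true => c | false => c') ?_ ?_ ?_ ?_
    · rintro (_ | _)
      · exact Sum.inr_injective
      · exact Function.injective_id
    · rintro (_ | _)
      · exact h2
      · exact h1
    · intro x y hxy
      by_cases hd : hol n 1 h x = hol n 1 h y
      · rcases x with ⟨x, x'⟩ | x <;> rcases y with ⟨y, y'⟩ | y
        · exfalso
          apply hxy
          simp only [hol, Sum.elim_inl, Option.some.injEq] at hd
          rw [hd, Subsingleton.elim x' y']
        · simp [hol] at hd
        · simp [hol] at hd
        · refine ⟨false, ⟨x, y, rfl, rfl, fun h => hxy (congrArg Sum.inr (h : x = y))⟩, ?_⟩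
          rintro (_ | _) hc
          · rfl
          · obtain ⟨x', y', h1, h2, h3⟩ := hc
            exfalso
            apply h3
            have h1' : x' = Sum.inr x := h1
            have h2' : y' = Sum.inr y := h2
            rw [h1', h2']
            rfl
      · refine ⟨true, ⟨x, y, rfl, rfl, hd⟩, ?_⟩
        rintro (_ | _) hc
        · obtain ⟨x', y', h1, h2, -⟩ := hc
          exfalso
          apply hd
          have h1' : Sum.inr x' = x := h1
          have h2' : Sum.inr y' = y := h2
          rw [← h1', ← h2']
          rfl
        · rfl
    · rintro (_ | _) x' y' hne h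
      · exact hne (Sum.inr_injective h)
      · exact hne (congrArg _ (h : x' = y'))
  simpa using hM

end Pool.Agent.Helper69.QC
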