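import Pool.Agent.Helper69.QB.FixR

/-!
Project QC: inequalities for the assembly.
-/

set_option autoImplicit false

namespace Pool.Agent.Helper69.QC

open Pool.Agent.Helper69.WV Pool.Agent.Helper53.BN Pool.Agent.Helper69.QB

/-- The pairs of points in the blocks of a design of type `W^n h^1` (concurrence one, block size
`m`) are almost all pairs of points. -/
theorem pairs_ineq {m Q n W h c v R : ℕ} (hm : 1 ≤ m) (hn : 1 ≤ n) (hW : 1 ≤ W)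
    (hv : v = n * W + (h + c)) (hc : c ≤ W) (hR : h + c ≤ R) (hr : 1 ≤ h + c)
    (hQ : Q * (m * (m - 1)) = n * (n - 1) * W ^ 2 + 2 * (n * W * h)) :
    (Q : ℝ) * ((C2 m : ℕ) : ℝ) ≤ ((C2 v : ℕ) : ℝ) ∧
      ((C2 v : ℕ) : ℝ) ≤ (Q : ℝ) * ((C2 m : ℕ) : ℝ) + ((R : ℝ) ^ 2 + 3 * W) * v := by
  have hQr : (Q : ℝ) * ((m : ℝ) * ((m : ℝ) - 1)) =
      (n : ℝ) * ((n : ℝ) - 1) * (W : ℝ) ^ 2 + 2 * ((n : ℝ) * W * h) := by
    have h1 : ((Q * (m * (m - 1)) : ℕ) : ℝ) = ((n * (n - 1) * W ^ 2 + 2 * (n * W * h) : ℕ) : ℝ) := by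
      rw [hQ]
    push_cast [Nat.cast_sub hm, Nat.cast_sub hn] at h1
    linarith
  have hvr : (v : ℝ) = n * W + (h + c) := by
    rw [hv]
    push_cast
    ring
  have hnr : (1 : ℝ) ≤ n := by exact_mod_cast hn
  have hWr : (1 : ℝ) ≤ W := by exact_mod_cast hW
  have hcr : (c : ℝ) ≤ W := by exact_mod_cast hc
  have hc0 : (0 : ℝ) ≤ c := Nat.cast_nonneg _
  have hh0 : (0 : ℝ) ≤ h := Nat.cast_nonneg _
  have hRr : (h : ℝ) + c ≤ R := by exact_mod_cast hR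
  have hrr : (1 : ℝ) ≤ (h : ℝ) + c := by exact_mod_cast hr
  have hE : 2 * ((C2 v : ℕ) : ℝ) - 2 * ((Q : ℝ) * ((C2 m : ℕ) : ℝ)) =
      (((h : ℝ) + c) ^ 2 - (h + c)) + n * W * (W - 1) + 2 * (n * W * c) := by
    rw [C2_cast, C2_cast, hvr]
    linear_combination (-1 : ℝ) * hQr
  have hnW : (0 : ℝ) ≤ (n : ℝ) * W := by positivity
  have e1 : (0 : ℝ) ≤ ((h : ℝ) + c) ^ 2 - (h + c) := by nlinarith
  have e2 : (0 : ℝ) ≤ (n : ℝ) * W * (W - 1) := mul_nonneg hnW (by linarith)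
  have e3 : (0 : ℝ) ≤ 2 * ((n : ℝ) * W * c) := by positivity
  refine ⟨by linarith, ?_⟩
  have e4 : ((h : ℝ) + c) ^ 2 ≤ (R : ℝ) ^ 2 := by nlinarith
  have e5 : (n : ℝ) * W * c ≤ n * W * W := mul_le_mul_of_nonneg_left hcr hnW
  have e6 : (n : ℝ) * W ≤ v := by linarith
  have e7 : (n : ℝ) * W * W ≤ v * W := mul_le_mul_of_nonneg_right e6 (by linarith)
  have e8 : (1 : ℝ) ≤ v := by nlinarith
  have e9 : (R : ℝ) ^ 2 ≤ (R : ℝ) ^ 2 * v := by nlinarith [sq_nonneg (R : ℝ)]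
  nlinarith

end Pool.Agent.Helper69.QC
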