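import Pool.Agent.Helper53.BN.Defs

/-!
Project QC, piece IA: the choice of the number of groups.
-/

set_option autoImplicit false

namespace Pool.Agent.Helper69.QC

open Pool.Agent.Helper69.WV Pool.Agent.Helper53.BN

/-- The choice of `m`: `m = 2 mod w` if `k` or `l` is even, and `m = 3 mod w` otherwise; `m ≥ B`,
`m ∈ KS k l` (`main k hk`), and `(m - 1) u + 1 = v mod w` can be solved with `u < w` for all
`v` with `Adm k l v` (`m - 1 = 1`, or `m - 1 = 2` and `v - 1` is even, since `l (v - 1)` is even and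
`l` is odd). (For `v = 0`: `Adm k l 0` does not hold in the second case... if `v = 0` use
`v = w` instead; so `0 < v` is assumed.) -/
theorem choose_m (k l : ℕ) (hk : 3 ≤ k) (hl : 2 ≤ l) (w B : ℕ) (hw : 0 < w) (hw2 : Even w) :
    ∃ m, B ≤ m ∧ m ∈ KS k l ∧
      ∀ v, 0 < v → Adm k l v → ∃ u, u < w ∧ (m - 1) * u + 1 ≡ v [MOD w] := by
  obtain ⟨v0, hv0⟩ := main k hk
  have hle : B + v0 ≤ w * (B + v0) := Nat.le_mul_of_pos_left _ hw
  by_cases h : Even k ∨ Even l
  · refine ⟨2 + w * (B + v0), by omega, hv0 _ (by omega) l hl ?_, fun v hv _ => ?_⟩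
    · rcases h with h | h
      · exact Or.inl h
      · exact Or.inr (h.mul_right _)
    · refine ⟨(v - 1) % w, Nat.mod_lt _ hw, ?_⟩
      have e1 : (2 + w * (B + v0) - 1) * ((v - 1) % w) + 1 =
          (v - 1) % w + 1 + w * ((B + v0) * ((v - 1) % w)) := by
        have : 2 + w * (B + v0) - 1 = 1 + w * (B + v0) := by omega
        rw [this]
        ring
      rw [e1]
      have e2 : (v - 1) % w + 1 ≡ (v - 1) + 1 [MOD w] := (Nat.mod_modEq _ _).add_right 1
      have e3 : v - 1 + 1 = v := by omega
      rw [e3] at e2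
      have e4 : (v - 1) % w + 1 + w * ((B + v0) * ((v - 1) % w)) ≡ (v - 1) % w + 1 [MOD w] := by
        unfold Nat.ModEq
        exact Nat.add_mul_mod_self_left _ _ _
      exact e4.trans e2
  · push Not at h
    obtain ⟨hk2, hl2⟩ := h
    refine ⟨3 + w * (B + v0), by omega, hv0 _ (by omega) l hl (Or.inr ?_), fun v hv ha => ?_⟩
    · have h1 : Even (w * (B + v0)) := hw2.mul_right _
      have h2 : 3 + w * (B + v0) - 1 = w * (B + v0) + 2 := by omega
      rw [h2]
      exact (h1.add even_two).mul_left _
    · have hv2 : Even (v - 1) := by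
        rcases ha with ha | ha
        · exact absurd ha hk2
        · rcases Nat.even_mul.1 ha with h | h
          · exact absurd h hl2
          · exact h
      obtain ⟨s, hs⟩ := hv2
      refine ⟨s % w, Nat.mod_lt _ hw, ?_⟩
      have e1 : (3 + w * (B + v0) - 1) * (s % w) + 1 =
          2 * (s % w) + 1 + w * ((B + v0) * (s % w)) := by
        have : 3 + w * (B + v0) - 1 = 2 + w * (B + v0) := by omega
        rw [this]
        ring
      rw [e1]
      have e2 : 2 * (s % w) + 1 ≡ 2 * s + 1 [MOD w] :=
        ((Nat.mod_modEq s w).mul_left 2).add_right 1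
      have e3 : 2 * s + 1 = v := by omega
      rw [e3] at e2
      have e4 : 2 * (s % w) + 1 + w * ((B + v0) * (s % w)) ≡ 2 * (s % w) + 1 [MOD w] := by
        unfold Nat.ModEq
        exact Nat.add_mul_mod_self_left _ _ _
      exact e4.trans e2

end Pool.Agent.Helper69.QC
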