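import Pool.Agent.Helper69.QC.HolB
import Pool.Agent.Helper69.QC.IvA

/-!
Project QC, piece IV: incomplete variance balanced designs.
-/

set_option autoImplicit false

namespace Pool.Agent.Helper69.QC

open Pool.Agent.Helper69.WV Pool.Agent.Helper53.BN

/-- Proof: let `w1` be large and even (`hTD k`, `main`: `w1 + 1 ∈ KS k l`), `m` from `choose_m`
with `B = max` of `2`, `hTD (w1 + 1)` (then the design of type `w1^m (m - 1)^1` exists:
`holeGroup glue`, `DD.dc`), `t = w A'` with a large `A' ≥ A` (`hTD (m + 1)`, `w ≤ t`,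
`t w1 + 1 ∈ KS k l` by `main`, since `t w1` is even), `a = m w1 A'`. For `v` let `u < w ≤ t` be from
`choose_m`, `c' = u (m - 1) + 1 ≤ a w`. `truncH` gives type `(t w1)^m (u (m - 1))^1`, and `fillH` with
`a := t w1`, `w := 1`, `s := 1` (`hol_small`) gives type `1^(m t w1) c'^1`, `m t w1 = a w`. -/
theorem ivb (k l : ℕ) (hk : 3 ≤ k) (hl : 2 ≤ l) (w A : ℕ) (hw : 0 < w) (hw2 : Even w) :
    ∃ a, A ≤ a ∧ ∀ v, 0 < v → Adm k l v → ∃ c' c, c' ≡ v [MOD w] ∧ 0 < c' ∧ c' ≤ a * w ∧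
      DC k l c (hol (a * w) 1 c') := by
  obtain ⟨v0, hv0⟩ := main k hk
  obtain ⟨n0, hn0⟩ := hTD k
  obtain ⟨w1, hw1⟩ : ∃ w1, w1 = 2 * (v0 + n0 + 1) := ⟨_, rfl⟩
  have hw1e : Even w1 := hw1 ▸ even_two_mul _
  have hK1 : w1 + 1 ∈ KS k l := hv0 _ (by omega) l hl (Or.inr (by
    rw [Nat.add_sub_cancel]
    exact hw1e.mul_left _))
  obtain ⟨n1, hn1⟩ := hTD (w1 + 1)
  obtain ⟨m, hBm, hmK, hm⟩ := choose_m k l hk hl w (2 + n1) hw hw2
  obtain ⟨chi, hchi⟩ : ∃ c, NR k l w1 m c := DD.dc (inflate k l w1 (Fin m) (Fin m) id hmK (hn0 w1 (by omega)))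
  obtain ⟨cB, hcB⟩ : ∃ c, DC k l c (hol m w1 (m - 1)) :=
    DD.dc (holeGroup glue k l w1 m hK1 hmK (by omega) (hn1 m (by omega)))
  obtain ⟨n2, hn2⟩ := hTD (m + 1)
  obtain ⟨A', hA'⟩ : ∃ A', A' = A + n2 + v0 + 1 := ⟨_, rfl⟩
  obtain ⟨t, ht⟩ : ∃ t, t = w * A' := ⟨_, rfl⟩
  have hAt : A' ≤ t := ht ▸ Nat.le_mul_of_pos_left _ hw
  have hwt : w ≤ t := ht ▸ Nat.le_mul_of_pos_right _ (by omega)
  have hw1pos : 1 ≤ w1 := by omega
  have htw : t ≤ t * w1 := Nat.le_mul_of_pos_right _ hw1pos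
  obtain ⟨c0, hc0⟩ : ∃ c, NB k l (t * w1 + 1) c := nb_of_ks (hv0 _ (by omega) l hl (Or.inr (by
    rw [Nat.add_sub_cancel]
    exact (hw1e.mul_left _).mul_left _)))
  have e1 : m * (t * w1) = m * w1 * A' * w := by
    rw [ht]
    ring
  refine ⟨m * w1 * A', ?_, fun v hv ha => ?_⟩
  · have h1 : A' ≤ m * w1 * A' := Nat.le_mul_of_pos_left _ (Nat.mul_pos (by omega) hw1pos)
    omega
  · obtain ⟨u, hu, huv⟩ := hm v hv ha
    have h1 := truncH (k := k) (l := l) (m := m) (t := t) (u := u) (w := w1) (h := m - 1)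
      (i := 0) (by omega) (by omega) (hn2 t (by omega)) hchi hchi (Or.inr hcB) (Nat.zero_le _)
    have h2 : DC k l c0 (hol (t * w1) 1 1) := (hol_small le_rfl).2 hc0
    rw [← Nat.mul_one (t * w1)] at h1
    have h3 := fillH h1 h2
    rw [e1] at h3
    refine ⟨u * (m - 1) + 1, _, ?_, Nat.succ_pos _, ?_, h3⟩
    · rw [mul_comm u (m - 1)]
      exact huv
    · rw [← e1]
      have h4 : u * (m - 1) ≤ (t - 1) * (m - 1) := Nat.mul_le_mul_right _ (by omega)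
      have h5 : (t - 1) * (m - 1) + 1 ≤ t * m := by
        obtain ⟨t', rfl⟩ : ∃ t', t = t' + 1 := ⟨t - 1, by omega⟩
        obtain ⟨m', hm'⟩ : ∃ m', m = m' + 1 := ⟨m - 1, by omega⟩
        rw [hm']
        simp only [Nat.add_sub_cancel]
        nlinarith
      have h6 : t * m ≤ m * (t * w1) := by
        rw [mul_comm t m]
        exact Nat.mul_le_mul_left _ htw
      omega

end Pool.Agent.Helper69.QC
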