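import Pool.Agent.Helper69.QB.FixI

/-!
Project QC: elementary number theory for the assembly.
-/

set_option autoImplicit false

namespace Pool.Agent.Helper69.QC

open Pool.Agent.Helper69.WV Pool.Agent.Helper53.BN Pool.Agent.Helper69.QB

/-- The choice of the size of the hole. -/
theorem pick_u2 {w N q c x U0 : ℕ} (hN : 0 < N) (hq : q.Prime) (hw : Nat.Coprime w q)
    (hNq : Nat.Coprime N q) : ∃ u, U0 ≤ u ∧ u < U0 + N * q ∧ u ≡ x [MOD N] ∧
      q ∣ w * u + c := by
  obtain ⟨u1, hu1⟩ := meetsAll_div q w ((q - 1) * c) hq.pos hw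
  obtain ⟨y, hy1, hy2⟩ := Nat.chineseRemainder hNq x u1
  obtain ⟨u, h1, h2, h3⟩ := pick_range (N * q) U0 y (Nat.mul_pos hN hq.pos)
  refine ⟨u, h1, h2, (h3.of_dvd (Dvd.intro _ rfl)).trans hy1, ?_⟩
  have h4 : u ≡ u1 [MOD q] := (h3.of_dvd (Dvd.intro_left _ rfl)).trans hy2
  have h5 : w * u + c ≡ (q - 1) * c + c [MOD q] :=
    ((h4.mul_left w).trans hu1).add_right c
  have h6 : (q - 1) * c + c = q * c := by
    obtain ⟨p, hp⟩ : ∃ p, q = p + 1 := ⟨q - 1, by have := hq.pos; omega⟩
    rw [hp, Nat.add_sub_cancel]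
    ring
  rw [h6] at h5
  exact (Nat.modEq_zero_iff_dvd).1 (h5.trans ((Nat.modEq_zero_iff_dvd).2 (Dvd.intro _ rfl)))

/-- The parity condition for the filling of the hole. -/
theorem adm_fill {k l v w u c q n : ℕ} (hw : Even w) (hc : c ≡ v [MOD w]) (hv : 0 < v)
    (hn : w * u + c = q * n) (h : Adm k l v) : Adm k l n := by
  rcases h with h | h
  · exact Or.inl h
  · rcases Nat.even_mul.1 h with hl | hv1
    · exact Or.inr (hl.mul_right _)
    · have hvo : v % 2 = 1 := by
        have := Nat.even_iff.1 hv1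
        omega
      have hc2 : c % 2 = 1 := by
        have h2 : c ≡ v [MOD 2] := hc.of_dvd (even_iff_two_dvd.1 hw)
        have h3 : c % 2 = v % 2 := h2
        omega
      have hodd : Odd (w * u + c) := by
        rw [Nat.odd_iff]
        have h3 : (w * u) % 2 = 0 := Nat.even_iff.1 (hw.mul_right u)
        omega
      rw [hn] at hodd
      refine Or.inr (Even.mul_left ?_ _)
      exact (Nat.odd_mul.1 hodd).2.tsub_odd odd_one

end Pool.Agent.Helper69.QC
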