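import Pool.Agent.Helper69.QB.Beta
import Pool.Agent.Helper69.QC.Dick

/-!
Project QC, piece OP: the optimum of the linear program is attained.
-/

set_option autoImplicit false

namespace Pool.Agent.Helper69.QC

open Pool.Agent.Helper69.WV Pool.Agent.Helper53.BN Pool.Agent.Helper69.QB

private lemma Opt_weights {n : ℕ} (a : n.Partition) (h : weights a = 0) :
    Multiset.card a.parts ≤ 1 := by
  by_contra hc
  push Not at hc
  have h1 : Multiset.card (weights a) = (Multiset.card a.parts).choose 2 := by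
    unfold weights
    rw [Multiset.card_map, Multiset.card_powersetCard]
  rw [h, Multiset.card_zero] at h1
  have h2 : 0 < (Multiset.card a.parts).choose 2 := Nat.choose_pos hc
  omega

private lemma Opt_sub {k l : ℕ} {z z' : k.Partition → ℕ} {y y' : l.Partition → ℕ}
    (h : Feasible k l z y) (h' : Feasible k l z' y') (hz : ∀ a, z a ≤ z' a) (hy : ∀ p, y p ≤ y' p)
    (hne : (∃ a, z a ≠ z' a) ∨ ∃ p, y p ≠ y' p) :
    Feasible k l (fun a => z' a - z a) (fun p => y' p - y p) := by
  have e1 : (∑ a, (z' a - z a) • weights a) + ∑ a, z a • weights a = ∑ a, z' a • weights a := by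
    rw [← Finset.sum_add_distrib]
    refine Finset.sum_congr rfl fun a _ => ?_
    rw [← add_smul, Nat.sub_add_cancel (hz a)]
  have e2 : (∑ p, (y' p - y p) • p.parts) + ∑ p, y p • p.parts = ∑ p, y' p • p.parts := by
    rw [← Finset.sum_add_distrib]
    refine Finset.sum_congr rfl fun p _ => ?_
    rw [← add_smul, Nat.sub_add_cancel (hy p)]
  have e3 : ∑ a, (z' a - z a) • weights a = ∑ p, (y' p - y p) • p.parts := by
    have h1 : (∑ a, (z' a - z a) • weights a) + ∑ a, z a • weights a =
        (∑ p, (y' p - y p) • p.parts) + ∑ a, z a • weights a := by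
      rw [e1, h'.2.2, ← e2, h.2.2]
    exact add_right_cancel h1
  refine ⟨fun a ha => ?_, ?_, e3⟩
  · show z' a - z a = 0
    rw [h'.1 a ha, Nat.zero_sub]
  · show 0 < ∑ p, (y' p - y p)
    by_contra hc
    have h0 : ∑ p, (y' p - y p) = 0 := by omega
    have h1 : ∀ p, y' p - y p = 0 := fun p => by
      have := Finset.sum_eq_zero_iff.1 h0 p (Finset.mem_univ p)
      exact this
    have h2 : ∑ a, (z' a - z a) • weights a = 0 := by
      rw [e3]
      exact Finset.sum_eq_zero fun p _ => by rw [h1 p, zero_smul]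
    rcases hne with ⟨a, ha⟩ | ⟨p, hp⟩
    · have h3 : (z' a - z a) • weights a = 0 := by
        have h4 : (z' a - z a) • weights a ≤ ∑ a, (z' a - z a) • weights a :=
          Finset.single_le_sum (f := fun a => (z' a - z a) • weights a)
            (fun _ _ => Multiset.zero_le _) (Finset.mem_univ a)
        rw [h2] at h4
        exact Multiset.le_zero.1 h4
      have h5 : weights a = 0 := by
        have h6 : z' a - z a ≠ 0 := by
          have := hz a
          omega
        rcases smul_eq_zero.1 h3 with h7 | h7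
        · exact absurd h7 h6
        · exact h7
      have h6 := Opt_weights a h5
      rw [h.1 a h6, h'.1 a h6] at ha
      exact ha rfl
    · have := h1 p
      have := hy p
      omega

/-- `dickson_max` for `ι = k.Partition ⊕ l.Partition`, `S` = the feasible points. If `x < y` are
feasible then `y - x` satisfies the linear equations; its `∑ p, y p` is positive, since otherwise all
its weights vanish, so `z = 0` (a pattern with at least two parts has a positive weight). The
set is not empty by `feasible_min`. -/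
theorem beta_attained (k l : ℕ) (hk : 2 ≤ k) : ∃ (z : k.Partition → ℕ) (y : l.Partition → ℕ),
    Feasible k l z y ∧ ((∑ a, z a : ℕ) : ℝ) = beta k l * ((∑ p, y p : ℕ) : ℝ) := by
  set S : Set (k.Partition ⊕ l.Partition → ℕ) :=
    {x | Feasible k l (fun a => x (Sum.inl a)) (fun p => x (Sum.inr p))} with hS
  obtain ⟨z₁, y₁, h₁, -, -⟩ := feasible_min k l hk
  have hne : S.Nonempty := ⟨Sum.elim z₁ y₁, h₁⟩
  have hf : ∀ x : k.Partition ⊕ l.Partition → ℕ,
      ∑ i, (Sum.elim (fun _ => 1) (fun _ => 0) : k.Partition ⊕ l.Partition → ℕ) i * x i =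
        ∑ a, x (Sum.inl a) := by
    intro x
    rw [Fintype.sum_sum_type]
    simp
  have hg : ∀ x : k.Partition ⊕ l.Partition → ℕ,
      ∑ i, (Sum.elim (fun _ => 0) (fun _ => 1) : k.Partition ⊕ l.Partition → ℕ) i * x i =
        ∑ p, x (Sum.inr p) := by
    intro x
    rw [Fintype.sum_sum_type]
    simp
  obtain ⟨x₀, hx₀, hmax⟩ := dickson_max S hne (fun x hx y hy hxy => by
    have hle : x ≤ y := hxy.le
    refine Opt_sub hx hy (fun a => hle _) (fun p => hle _) ?_
    by_contra hc
    push Not at hc
    refine hxy.ne (funext fun i => ?_)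
    rcases i with a | p
    · exact hc.1 a
    · exact hc.2 p) (Sum.elim (fun _ => 1) (fun _ => 0)) (Sum.elim (fun _ => 0) (fun _ => 1))
    (fun x hx => by
      rw [hg]
      exact hx.2.1)
  simp only [hf, hg] at hmax
  refine ⟨fun a => x₀ (Sum.inl a), fun p => x₀ (Sum.inr p), hx₀, ?_⟩
  have h0 : (0 : ℝ) < ((∑ p, x₀ (Sum.inr p) : ℕ) : ℝ) := by exact_mod_cast hx₀.2.1
  have h1 : beta k l ≤ ((∑ a, x₀ (Sum.inl a) : ℕ) : ℝ) / ((∑ p, x₀ (Sum.inr p) : ℕ) : ℝ) := by
    refine csSup_le ⟨_, z₁, y₁, h₁, rfl⟩ ?_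
    rintro x ⟨z, y, h, rfl⟩
    have h2 : (0 : ℝ) < ((∑ p, y p : ℕ) : ℝ) := by exact_mod_cast h.2.1
    rw [div_le_div_iff₀ h2 h0]
    have h3 := hmax (Sum.elim z y) h
    simp only [Sum.elim_inl, Sum.elim_inr] at h3
    exact_mod_cast h3
  have h2 := le_beta hk hx₀
  have h3 := le_antisymm h1 h2
  rw [h3, div_mul_cancel₀ _ h0.ne']

end Pool.Agent.Helper69.QC
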