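import Pool.Agent.Helper69.WV.All
import Pool.Agent.Helper69.QB.Beta
import Pool.Agent.Helper69.QB.FeasDesign

/-!
Project QC, piece RA: residue classes of the numbers of groups (concurrence one).
-/

set_option autoImplicit false

namespace Pool.Agent.Helper69.QC

open Pool.Agent.Helper69.WV Pool.Agent.Helper53.BN Pool.Agent.Helper69.QB

/-- `feasible_min k 1` and `feasible_primes` (`nb_ks`). -/
theorem steiner_primes (k : ℕ) (hk : 2 ≤ k) : ∃ q0, ∀ q : ℕ, q.Prime → q0 ≤ q →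
    q ≡ 1 [MOD k * (k - 1)] → q ∈ KS k 1 := by
  obtain ⟨z, y, h, -, hy⟩ := feasible_min k 1 hk
  obtain ⟨q0, hq0⟩ := feasible_primes h
  have h2 : 2 * ∑ p, y p = k * (k - 1) := by
    rw [hy]
    exact Nat.mul_div_cancel' (Nat.even_mul_pred_self k).two_dvd
  refine ⟨q0, fun q hq hqq hmod => ?_⟩
  exact nb_ks (hq0 q hq hqq (by rw [h2]; exact hmod))

/-- The set `K = RS k 1 (q - 1)` contains elements in all residue classes modulo `q ^ j`. Proof: if
`q ^ j ∣ r` take `q ^ j x`, otherwise `r = q ^ a r'`, `q ∤ r'`, and take `q ^ a x`, where `x` is a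
large prime with `x ≡ 1 mod k (k - 1)` and `x ≡ r' mod q ^ j` (Dirichlet,
`Nat.forall_exists_prime_gt_and_modEq`, and `Nat.chineseRemainder`; `q` is prime to `k (k - 1)`).
`x ∈ K` by `steiner_primes` and `ks_rs inflate` (`TD k (q - 1)`), `q x ∈ K` by `cMul` (`q ∈ K`,
`TD q x` for large `x` by `hTD`). -/
theorem rs_residues {k q : ℕ} (hk : 2 ≤ k) (hq : q.Prime) (hq1 : q ≡ 1 [MOD k * (k - 1)])
    (hqK : q ∈ KS k 1) (hT : TD k (q - 1)) (j r : ℕ) : ∃ u ∈ RS k 1 (q - 1), u ≡ r [MOD q ^ j] := by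
  have hcl : Closed (RS k 1 (q - 1)) := closedR glue k 1 (q - 1)
  by_cases hr : q ^ j ∣ r
  · exact ⟨0, hcl.1, (Nat.modEq_zero_iff_dvd.2 hr).symm⟩
  have hr0 : r ≠ 0 := by
    rintro rfl
    exact hr (dvd_zero _)
  obtain ⟨a, r', hqr', hrr⟩ := Nat.exists_eq_pow_mul_and_not_dvd hr0 q hq.ne_one
  obtain ⟨q0, hq0⟩ := steiner_primes k hk
  obtain ⟨n0, hn0⟩ := hTD q
  have hcop : Nat.Coprime (k * (k - 1)) (q ^ j) := by
    apply Nat.Coprime.pow_right
    have h1 := hq1.gcd_eq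
    rw [Nat.gcd_one_left] at h1
    rw [Nat.coprime_comm]
    exact h1
  obtain ⟨c, hc1, hc2⟩ := Nat.chineseRemainder hcop 1 r'
  have hk0 : k * (k - 1) ≠ 0 := by
    have : 0 < k * (k - 1) := Nat.mul_pos (by omega) (by omega)
    omega
  have hn : k * (k - 1) * q ^ j ≠ 0 := Nat.mul_ne_zero hk0 (pow_ne_zero _ hq.ne_zero)
  have hcc : Nat.Coprime c (k * (k - 1) * q ^ j) := by
    apply Nat.Coprime.mul_right
    · have h1 := hc1.gcd_eq
      rw [Nat.gcd_one_left] at h1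
      exact h1
    · apply Nat.Coprime.pow_right
      rw [Nat.coprime_comm, hq.coprime_iff_not_dvd]
      intro h
      apply hqr'
      rcases Nat.eq_zero_or_pos j with rfl | hj
      · exact absurd (one_dvd r) (by simpa using hr)
      · have h2 : c ≡ r' [MOD q] := hc2.of_dvd (dvd_pow_self q hj.ne')
        exact (h2.dvd_iff dvd_rfl).1 h
  obtain ⟨x, hx1, hx2, hx3⟩ := Nat.forall_exists_prime_gt_and_modEq (max q0 n0) hn hcc
  have hxq : x ≡ r' [MOD q ^ j] := (hx3.of_dvd (dvd_mul_left _ _)).trans hc2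
  have hxk : x ≡ 1 [MOD k * (k - 1)] := (hx3.of_dvd (dvd_mul_right _ _)).trans hc1
  have hxK : x ∈ RS k 1 (q - 1) :=
    ks_rs inflate (hq0 x hx2 ((le_max_left _ _).trans hx1.le) hxk) hT
  have hqR : q ∈ RS k 1 (q - 1) := ks_rs inflate hqK hT
  have hpow : ∀ i : ℕ, q ^ i * x ∈ RS k 1 (q - 1) := by
    intro i
    induction i with
    | zero => simpa using hxK
    | succ i ih =>
      have h1 : x ≤ q ^ i * x := Nat.le_mul_of_pos_left _ (pow_pos hq.pos i)
      have h2 := cMul _ hcl q (q ^ i * x) hqR ih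
        (hn0 _ ((le_max_right q0 n0).trans (hx1.le.trans h1)))
      rw [pow_succ, mul_comm (q ^ i) q, mul_assoc]
      exact h2
  refine ⟨q ^ a * x, hpow a, ?_⟩
  rw [hrr]
  exact hxq.mul_left (q ^ a)

end Pool.Agent.Helper69.QC
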