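import Pool.Agent.Helper69.QC.Opt
import Pool.Agent.Helper69.QC.RsA
import Pool.Agent.Helper69.QB.FixR
import Pool.Agent.Helper69.QB.TsA

/-!
Project QC: two designs on the same prime with the smallest and the largest number of blocks.
-/

set_option autoImplicit false

namespace Pool.Agent.Helper69.QC

open Pool.Agent.Helper69.WV Pool.Agent.Helper53.BN Pool.Agent.Helper69.QB

private theorem perf_count {n N m : ℕ} (hN : 0 < N) (hm : 0 < m) (h : m ≡ 1 [MOD 2 * N]) :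
    ((n * (m * ((m - 1) / (2 * N))) : ℕ) : ℝ) = (n : ℝ) / N * ((C2 m : ℕ) : ℝ) := by
  obtain ⟨j, hj⟩ := (Nat.modEq_iff_dvd' hm).1 h.symm
  rw [hj, Nat.mul_div_cancel_left _ (Nat.mul_pos two_pos hN), C2_cast]
  have h1 : (m : ℝ) - 1 = 2 * N * j := by
    have h2 : m = 2 * N * j + 1 := by omega
    rw [h2]
    push_cast
    ring
  have hN' : (N : ℝ) ≠ 0 := by exact_mod_cast hN.ne'
  rw [h1]
  push_cast
  field_simp

theorem lt_beta (k l : ℕ) (hk : 3 ≤ k) (hl : 2 ≤ l) : (l : ℝ) / (C2 k : ℝ) < beta k l := by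
  have hC : C2 k = k * (k - 1) / 2 := rfl
  have hCp : 0 < C2 k := by
    have h1 : 2 ≤ k * (k - 1) := by
      calc 2 ≤ 3 * 1 := by norm_num
        _ ≤ k * (k - 1) := Nat.mul_le_mul hk (by omega)
    rw [hC]
    omega
  obtain ⟨z, y, hf, hz, hy⟩ := feasible_two k l (C2 k) hk hl le_rfl
  have h1 := le_beta (by omega) hf
  rw [hz, hy, ← hC] at h1
  refine lt_of_lt_of_le ?_ h1
  have hCr : (0 : ℝ) < (C2 k : ℝ) := by exact_mod_cast hCp
  push_cast
  rw [div_lt_div_iff₀ hCr (by positivity)]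
  nlinarith

/-- Two designs on the same prime with the smallest and the largest number of blocks. -/
theorem perfect_pair (k l : ℕ) (hk : 3 ≤ k) (hl : 2 ≤ l) (B : ℕ) :
    ∃ m s0 s1 : ℕ, m.Prime ∧ B ≤ m ∧ m ∈ KS k 1 ∧ NB k l m s0 ∧ NB k l m s1 ∧ s0 < s1 ∧
      (s0 : ℝ) = (l : ℝ) / (C2 k : ℝ) * ((C2 m : ℕ) : ℝ) ∧
      (s1 : ℝ) = beta k l * ((C2 m : ℕ) : ℝ) := by
  obtain ⟨z1, y1, hf1, hx1⟩ := beta_attained k l (by omega)
  obtain ⟨z0, y0, hf0, hz0, hy0⟩ := feasible_min k l (by omega)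
  set N1 : ℕ := ∑ p, y1 p with hN1
  set n1 : ℕ := ∑ a, z1 a with hn1
  set N0 : ℕ := ∑ p, y0 p with hN0
  have hN1p : 0 < N1 := hf1.2.1
  have hN0p : 0 < N0 := hf0.2.1
  obtain ⟨q1, hq1⟩ := feasible_primes hf1
  obtain ⟨q0, hq0⟩ := feasible_primes hf0
  obtain ⟨q2, hq2⟩ := steiner_primes k (by omega)
  have hkk : k * (k - 1) = 2 * N0 := by
    have h1 : Even (k * (k - 1)) := Nat.even_mul_pred_self k
    have h2 := Nat.two_mul_div_two_of_even h1
    rw [← hy0] at h2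
    exact h2.symm
  obtain ⟨m, hmM, hmp, hm1⟩ := Nat.forall_exists_prime_gt_and_modEq (q0 + q1 + q2 + B + 3)
    (Nat.mul_pos (Nat.mul_pos two_pos hN0p) hN1p).ne' (Nat.coprime_one_left (2 * N0 * N1))
  have hmN0 : m ≡ 1 [MOD 2 * N0] := hm1.of_dvd (Dvd.intro _ rfl)
  have hmN1 : m ≡ 1 [MOD 2 * N1] := hm1.of_dvd ⟨N0, by ring⟩
  have hs0 : NB k l m (l * (m * ((m - 1) / (2 * N0)))) := by
    have := hq0 m hmp (by omega) hmN0
    rwa [hz0] at this
  have hs1 : NB k l m (n1 * (m * ((m - 1) / (2 * N1)))) := hq1 m hmp (by omega) hmN1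
  have hc0 := perf_count (n := l) hN0p hmp.pos hmN0
  have hc1 := perf_count (n := n1) hN1p hmp.pos hmN1
  have hN0C : (N0 : ℝ) = (C2 k : ℝ) := by
    have : N0 = C2 k := hy0
    rw [this]
  have hN1r : (0 : ℝ) < (N1 : ℝ) := by exact_mod_cast hN1p
  have hb : (n1 : ℝ) / N1 = beta k l := by
    rw [div_eq_iff hN1r.ne']
    exact hx1
  rw [hN0C] at hc0
  rw [hb] at hc1
  refine ⟨m, _, _, hmp, by omega, hq2 m hmp (by omega) (by rw [hkk]; exact hmN0), hs0, hs1, ?_,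
    hc0, hc1⟩
  have hC2m : (0 : ℝ) < ((C2 m : ℕ) : ℝ) := by
    rw [C2_cast]
    have : (3 : ℝ) < m := by
      have : 3 < m := by omega
      exact_mod_cast this
    nlinarith
  have h1 : ((l * (m * ((m - 1) / (2 * N0))) : ℕ) : ℝ) <
      ((n1 * (m * ((m - 1) / (2 * N1))) : ℕ) : ℝ) := by
    rw [hc0, hc1]
    exact mul_lt_mul_of_pos_right (lt_beta k l hk hl) hC2m
  exact_mod_cast h1

end Pool.Agent.Helper69.QC
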