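import Pool.Agent.Helper69.QC.Cl
import Pool.Agent.Helper69.QC.RsA

/-!
Project QC, piece RO: group divisible designs with concurrence one of type `w^M` for all large `M`.
-/

set_option autoImplicit false

namespace Pool.Agent.Helper69.QC

open Pool.Agent.Helper69.WV Pool.Agent.Helper53.BN Pool.Agent.Helper69.QB

/-- Proof: let `q` be a prime with `q = 1 mod E k (k - 1)`, larger than `B`, `q0` of
`steiner_primes` and `n0 + 1` of `hTD k`. `K = RS k 1 (q - 1)` is closed (`closedR glue`), contains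
`q` (`ks_rs inflate`) and `q + 1` (`evenElt glue`), is infinite (large primes `= 1 mod k (k - 1)`),
and `rs_residues` holds: `closed_all` with `m = q`. -/
theorem rs_one (k : ℕ) (hk : 2 ≤ k) (E B : ℕ) (hE : 0 < E) : ∃ q, q.Prime ∧ B ≤ q ∧ E ∣ q - 1 ∧
    k * (k - 1) ∣ q - 1 ∧ q ∈ KS k 1 ∧ q ∈ RS k 1 (q - 1) ∧ q + 1 ∈ RS k 1 (q - 1) ∧
    ∃ n1, ∀ M, n1 ≤ M → M ∈ RS k 1 (q - 1) := by
  obtain ⟨q0, hq0⟩ := steiner_primes k hk
  obtain ⟨n0, hn0⟩ := hTD k
  have hkk : 0 < k * (k - 1) := Nat.mul_pos (by omega) (by omega)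
  obtain ⟨q, hqB, hqp, hq1⟩ := Nat.forall_exists_prime_gt_and_modEq (q0 + n0 + B + 1)
    (Nat.mul_pos hE hkk).ne' (Nat.coprime_one_left (E * (k * (k - 1))))
  have hq1k : q ≡ 1 [MOD k * (k - 1)] := hq1.of_dvd (Dvd.intro_left _ rfl)
  have hqK : q ∈ KS k 1 := hq0 q hqp (by omega) hq1k
  have hT : TD k (q - 1) := hn0 (q - 1) (by omega)
  have hqR : q ∈ RS k 1 (q - 1) := ks_rs inflate hqK hT
  have hqR1 : q + 1 ∈ RS k 1 (q - 1) := evenElt glue k 1 q hqp hqK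
  refine ⟨q, hqp, by omega, ?_, ?_, hqK, hqR, hqR1, ?_⟩
  · exact (Nat.modEq_iff_dvd' hqp.one_le).1 (hq1.of_dvd (Dvd.intro _ rfl)).symm
  · exact (Nat.modEq_iff_dvd' hqp.one_le).1 hq1k.symm
  · refine closed_all (closedR glue k 1 (q - 1)) hqp.two_le hqR hqR1 ?_ ?_
    · intro B'
      obtain ⟨x, hxB, hxp, hx1⟩ := Nat.forall_exists_prime_gt_and_modEq (q0 + B')
        hkk.ne' (Nat.coprime_one_left (k * (k - 1)))
      exact ⟨x, ks_rs inflate (hq0 x hxp (by omega) hx1) hT, by omega⟩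
    · intro j r
      exact rs_residues hk hqp hq1k hqK hT j r

end Pool.Agent.Helper69.QC
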