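import Pool.Agent.Helper53.BN.Glue
import Pool.Agent.Helper69.QB.Defs

/-!
Project QC, piece SU: substituting designs for the blocks of a design with concurrence one.
-/

set_option autoImplicit false

namespace Pool.Agent.Helper69.QC

open Pool.Agent.Helper69.WV Pool.Agent.Helper53.BN

/-- The blocks of a design with concurrence one are injective: if `f b i = f b j = x` with `i ≠ j`,
choose `z` with `f b z ≠ x` (the block is not constant); then `(b, i, z)`, `(b, j, z)` show that the
concurrence of `x` and `f b z` is at least two, but it is `0` or `1`. -/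
theorem block_inj {m : ℕ} {V I ι : Type} [Finite ι] {γ : V → I} (f : ι → Fin m → V)
    (h1 : ∀ b, ∃ i j, f b i ≠ f b j) (h2 : ∀ x y, γ x ≠ γ y → cc f x y = 1)
    (h3 : ∀ x y, x ≠ y → γ x = γ y → cc f x y = 0) (b : ι) : Function.Injective (f b) := by
  intro i j hij
  by_contra hne
  obtain ⟨z, hz⟩ : ∃ z, f b z ≠ f b i := by
    obtain ⟨p, q, hpq⟩ := h1 b
    by_cases hp : f b p = f b i
    · exact ⟨q, fun h => hpq (hp.trans h.symm)⟩
    · exact ⟨p, hp⟩
  have hγ : γ (f b i) ≠ γ (f b z) := by
    intro h
    exact glue_none f _ _ (h3 _ _ (Ne.symm hz) h) b i z rfl rfl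
  have hc := h2 _ _ hγ
  unfold cc at hc
  have hs := (Nat.card_eq_one_iff_unique.1 hc).1
  have h4 := hs.elim (⟨(b, i, z), rfl, rfl⟩ : {p : ι × Fin m × Fin m //
    f p.1 p.2.1 = f b i ∧ f p.1 p.2.2 = f b z}) ⟨(b, j, z), hij.symm, rfl⟩
  simp only [Subtype.mk.injEq, Prod.mk.injEq, and_true, true_and] at h4
  exact hne h4

/-- Every block of a design with concurrence one and block size `m` is replaced by one of two
designs on `m` points: `glueC` with the index type `ι` (the blocks), `W b = J b = Fin m`, `δ b = id`,
`e b = f b` (injective by `block_inj`); `c b = s1` for `i` of the blocks, `c b = s0` for the others.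
A pair of points in different groups lies in exactly one block since its concurrence is one; two
points of the same group lie in no block. -/
theorem subst {k l m Q s0 s1 i : ℕ} {V I : Type} {γ : V → I} (h : DC m 1 Q γ)
    (h0 : NB k l m s0) (h1 : NB k l m s1) (hs : s0 ≤ s1) (hi : i ≤ Q) :
    DC k l (Q * s0 + i * (s1 - s0)) γ := by
  classical
  obtain ⟨ι, hι, f, g1, g2, g3, g4⟩ := h
  have : Fintype ι := Fintype.ofFinite ι
  have hinj := block_inj f g1 g2 g3
  obtain ⟨S, -, hS⟩ := Finset.exists_subset_card_eq (s := (Finset.univ : Finset ι)) (n := i)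
    (by rw [Finset.card_univ, ← Nat.card_eq_fintype_card, g4]; exact hi)
  have key := glueC (k := k) (l := l) (γ := γ) (B := ι) (W := fun _ => Fin m)
    (J := fun _ => Fin m) (fun _ => id) f (fun b => if b ∈ S then s1 else s0) hinj
    (by
      intro b
      by_cases hb : b ∈ S
      · simp only [if_pos hb]
        exact h1
      · simp only [if_neg hb]
        exact h0)
    (by
      intro x y hxy
      have hc := g2 x y hxy
      unfold cc at hc
      obtain ⟨hsub, ⟨p, hp1, hp2⟩⟩ := Nat.card_eq_one_iff_unique.1 hc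
      refine ⟨p.1, ⟨p.2.1, p.2.2, hp1, hp2, ?_⟩, ?_⟩
      · intro h
        apply hxy
        rw [← hp1, ← hp2]
        simp only [id] at h
        rw [h]
      · rintro b ⟨x', y', hx', hy', -⟩
        have h5 := hsub.elim (⟨(b, x', y'), hx', hy'⟩ : {p : ι × Fin m × Fin m //
          f p.1 p.2.1 = x ∧ f p.1 p.2.2 = y}) ⟨p, hp1, hp2⟩
        have h6 := congrArg Subtype.val h5
        exact congrArg Prod.fst h6)
    (by
      intro b x' y' hxy hγ
      exact glue_none f _ _ (g3 _ _ (fun h => hxy (hinj b h)) hγ) b x' y' rfl rfl)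
  refine key.cast ?_
  have h7 : ∀ b : ι, (if b ∈ S then s1 else s0) = s0 + (if b ∈ S then s1 - s0 else 0) := by
    intro b
    split_ifs <;> omega
  rw [Finset.sum_congr rfl fun b _ => h7 b, Finset.sum_add_distrib, Finset.sum_const,
    Finset.card_univ, ← Nat.card_eq_fintype_card, g4, ← Finset.sum_filter, Finset.sum_const,
    Finset.filter_mem_eq_inter, Finset.univ_inter, hS, smul_eq_mul, smul_eq_mul]

end Pool.Agent.Helper69.QC
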