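import Pool.Agent.Helper69.QC.HolB
import Pool.Agent.Helper69.QC.Sub

/-!
Project QC: the designs of the first theorem.
-/

set_option autoImplicit false

namespace Pool.Agent.Helper69.QC

open Pool.Agent.Helper69.WV Pool.Agent.Helper53.BN Pool.Agent.Helper69.QB

/-- The designs with concurrence one of type `(a w)^(q t) (u w)^1`. -/
theorem t1_base {m q a w t u : ℕ} (hq : 2 ≤ q) (h0 : q ∈ RS m 1 w) (h1 : q + 1 ∈ RS m 1 w)
    (hT : TD (q + 1) (t * a)) (hu : u ≤ t * a) (ht : t ∈ RS m 1 (a * w)) :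
    ∃ Q, DC m 1 Q (hol (q * t) (a * w) (u * w)) := by
  obtain ⟨c0, hc0⟩ := DD.dc h0
  obtain ⟨c1, hc1⟩ := DD.dc h1
  obtain ⟨c2, hc2⟩ := DD.dc ht
  have h2 := truncH (i := 0) hq hu hT hc0 hc0 (Or.inr (hol_succ hc1)) (Nat.zero_le _)
  rw [mul_assoc t a w] at h2
  have h3 := fillH h2 (hol_zero.2 hc2)
  rw [Nat.add_zero] at h3
  exact ⟨_, h3⟩

theorem t1_design {k l m q a w t u c' s0 s1 Q cI cL i : ℕ}
    (hQ : DC m 1 Q (hol (q * t) (a * w) (u * w))) (hs0 : NB k l m s0) (hs1 : NB k l m s1)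
    (hs : s0 ≤ s1) (hI : DC k l cI (hol (a * w) 1 c')) (hL : NB k l (u * w + c') cL)
    (hi : i ≤ Q) : NB k l (q * t * (a * w) + (u * w + c'))
      (Q * s0 + i * (s1 - s0) + q * t * cI + cL) := by
  have h1 := subst hQ hs0 hs1 hs hi
  rw [← mul_one (a * w)] at h1
  have h2 := fillH h1 hI
  exact closeH h2 hL

end Pool.Agent.Helper69.QC
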