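import Pool.Agent.Helper69.QC.Perf
import Pool.Agent.Helper69.QC.T1D
import Pool.Agent.Helper69.QC.NumU
import Pool.Agent.Helper69.QC.Ineq
import Pool.Agent.Helper69.QC.Cnt
import Pool.Agent.Helper69.QC.RsOne
import Pool.Agent.Helper69.QC.Ivb
import Pool.Agent.Helper69.QB.FixD
import Pool.Agent.Helper69.QB.TwoSizes

/-!
Project QC: all numbers of blocks up to an additive linear error.
-/

set_option autoImplicit false

namespace Pool.Agent.Helper69.QC

open Pool.Agent.Helper69.WV Pool.Agent.Helper53.BN Pool.Agent.Helper69.QB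

/-- For fixed block size and concurrence, all large orders: every number of blocks between the
bounds up to an additive error which is linear in the order. -/
theorem t1 (k l : ℕ) (hk : 3 ≤ k) (hl : 2 ≤ l) : ∃ C v₀ : ℕ, ∀ v, v₀ ≤ v → Adm k l v → ∀ b : ℕ,
    (l : ℝ) / (C2 k : ℝ) * ((C2 v : ℕ) : ℝ) + C * v ≤ b →
    (b : ℝ) ≤ beta k l * ((C2 v : ℕ) : ℝ) - C * v → NB k l v b := by
  obtain ⟨m, s0, s1, hmp, hm3, -, hs0, hs1, hs01, he0, he1⟩ := perfect_pair k l hk hl 3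
  obtain ⟨q, hqp, hq3, hq2, -, -, hqR, hqR1, n1, hn1⟩ := rs_one m hmp.two_le 2 3 two_pos
  set w : ℕ := q - 1 with hw
  have hw0 : 0 < w := by omega
  have hwe : Even w := even_iff_two_dvd.2 hq2
  obtain ⟨nT, hnT⟩ := hTD m
  obtain ⟨a, haA, hIv⟩ := ivb k l hk hl w (nT + 1) hw0 hwe
  have ha0 : 0 < a := by omega
  set Δ : ℕ := s1 - s0 with hΔ
  have hΔp : 0 < Δ := by omega
  obtain ⟨q2, g, D, hq2p, hq2B, hg, hgD, hD, hDΔ⟩ := two_sizes k l hk hl Δ (q * a * w) hΔp
  obtain ⟨nq, hnq⟩ := hTD (q + 1)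
  obtain ⟨n2, hn2⟩ := hTD (q2 + 1)
  obtain ⟨v1, hv1⟩ := main k hk
  set W : ℕ := a * w with hW
  have hW0 : 0 < W := Nat.mul_pos ha0 hw0
  set N : ℕ := a * q with hN
  have hN0 : 0 < N := Nat.mul_pos ha0 hqp.pos
  set U0 : ℕ := q2 * (n2 + v1 + Δ + 1) with hU0
  set U : ℕ := U0 + N * q2 with hU
  set R : ℕ := U * w + W with hR
  set F : ℕ := R * R * g + q2 * (l * R ^ 2) + Δ * D with hF
  set C : ℕ := l * (2 * W) ^ 2 + F + l * (R ^ 2 + 3 * W) with hC
  set T : ℕ := nq + n1 + U + 1 with hT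
  -- the primes
  have hqaw : q * a * w = w * N := by rw [hN]; ring
  have hw2 : Nat.Coprime w q2 :=
    (Nat.Coprime.symm ((Nat.Prime.coprime_iff_not_dvd hq2p).2 fun hd => by
      have h1 := Nat.le_of_dvd hw0 hd
      have h2 : w ≤ w * N := Nat.le_mul_of_pos_right _ hN0
      omega))
  have hN2 : Nat.Coprime N q2 :=
    (Nat.Coprime.symm ((Nat.Prime.coprime_iff_not_dvd hq2p).2 fun hd => by
      have h1 := Nat.le_of_dvd hN0 hd
      have h2 : N ≤ w * N := Nat.le_mul_of_pos_left _ hw0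
      omega))
  refine ⟨C, w * (U + N * T) + W + 1, fun v hv hadm b hb1 hb2 => ?_⟩
  have hv0 : 0 < v := by omega
  obtain ⟨c', cI, hc1, hc2, hc3, hI⟩ := hIv v hv0 hadm
  have hc'v : c' ≤ v := by omega
  obtain ⟨x, hx⟩ := (Nat.modEq_iff_dvd' hc'v).1 hc1
  have hvx : v = w * x + c' := by omega
  obtain ⟨u, hu1, hu2, hu3, hu4⟩ := pick_u2 (w := w) (N := N) (q := q2) (c := c') (x := x)
    (U0 := U0) hN0 hq2p hw2 hN2
  have huU : u ≤ U := hu2.le
  have hux : u ≤ x := by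
    by_contra hcon
    have h1 : w * x ≤ w * U := Nat.mul_le_mul_left _ (by omega)
    have h2 : w * U ≤ w * (U + N * T) := Nat.mul_le_mul_left _ (Nat.le_add_right _ _)
    omega
  obtain ⟨t, ht⟩ := (Nat.modEq_iff_dvd' hux).1 hu3
  have hxt : x = u + N * t := by omega
  have htT : T ≤ t := by
    by_contra hcon
    have h1 : N * t ≤ N * T := Nat.mul_le_mul_left _ (not_le.1 hcon).le
    have h2 : w * x ≤ w * (U + N * T) := Nat.mul_le_mul_left _ (by omega)
    omega
  have hvt : v = q * t * W + (u * w + c') := by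
    rw [hvx, hxt, hW, hN]
    ring
  obtain ⟨n, hn⟩ := hu4
  have hnn : n2 + v1 + Δ + 1 ≤ n := by
    have h1 : q2 * (n2 + v1 + Δ + 1) ≤ q2 * n := by
      rw [← hn]
      have h2 : u ≤ w * u := Nat.le_mul_of_pos_left _ hw0
      omega
    exact Nat.le_of_mul_le_mul_left h1 hq2p.pos
  have hadmn : Adm k l n := adm_fill hwe hc1 hv0 hn hadm
  obtain ⟨c, hc⟩ := nb_of_ks (hv1 n (by omega) l hl hadmn)
  -- the designs with concurrence one
  have hta : t ≤ t * a := Nat.le_mul_of_pos_right _ ha0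
  have htW : t ∈ RS m 1 (a * w) := by
    rw [mul_comm a w]
    exact rs_mul inflate (hn1 t (by omega)) (hnT a (by omega))
  obtain ⟨Q, hQ⟩ := t1_base hqp.two_le hqR hqR1 (hnq (t * a) (by omega)) (by omega : u ≤ t * a) htW
  have hcount := count_hol hQ
  -- the inequalities
  have hR1 : u * w + c' ≤ R := by
    have := Nat.mul_le_mul_right w huU
    omega
  have hn0 : 1 ≤ q * t := Nat.mul_pos hqp.pos (by omega)
  have hpairs := pairs_ineq (m := m) (Q := Q) (n := q * t) (W := W) (h := u * w) (c := c') (v := v)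
    (R := R) hmp.one_le hn0 hW0 hvt hc3 hR1 (by omega) (by rw [hcount])
  set T0 : ℕ := Q * s0 + q * t * cI + (n * n * g + q2 * c) with hT0
  have hvr : (1 : ℝ) ≤ v := by exact_mod_cast hv0
  have hlow : ((T0 + Δ * D : ℕ) : ℝ) ≤ (b : ℝ) := by
    refine le_trans ?_ hb1
    have hnK : n ≤ R := by
      have h3 : n ≤ q2 * n := Nat.le_mul_of_pos_left _ hq2p.pos
      have h4 : w * u + c' = u * w + c' := by ring
      omega
    have hcb : c ≤ l * R ^ 2 :=
      (nb_bound hc).trans (Nat.mul_le_mul_left _ (Nat.pow_le_pow_left hnK 2))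
    have e1 : n * n * g ≤ R * R * g := Nat.mul_le_mul_right _ (Nat.mul_le_mul hnK hnK)
    have e2 : q2 * c ≤ q2 * (l * R ^ 2) := Nat.mul_le_mul_left _ hcb
    have hcI : cI ≤ l * (2 * W) ^ 2 := by
      have h1 := DC.bound hI
      have h2 : Nat.card ((Fin (a * w) × Fin 1) ⊕ Fin c') = W + c' := by
        simp [hW]
      rw [h2] at h1
      refine h1.trans (Nat.mul_le_mul_left _ (Nat.pow_le_pow_left ?_ 2))
      omega
    have hqt : q * t ≤ v := by
      have h1 : q * t ≤ q * t * W := Nat.le_mul_of_pos_right _ hW0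
      omega
    have e3 : q * t * cI ≤ l * (2 * W) ^ 2 * v := by
      calc q * t * cI ≤ v * (l * (2 * W) ^ 2) := Nat.mul_le_mul hqt hcI
        _ = l * (2 * W) ^ 2 * v := by ring
    have e4 : q * t * cI + (n * n * g + q2 * c) + Δ * D ≤ C * v := by
      have h1 : F ≤ F * v := Nat.le_mul_of_pos_right _ hv0
      have h2 : C * v = l * (2 * W) ^ 2 * v + F * v + l * (R ^ 2 + 3 * W) * v := by
        rw [hC]
        ring
      have h3 : 0 ≤ l * (R ^ 2 + 3 * W) * v := Nat.zero_le _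
      omega
    have e4' : ((q * t * cI + (n * n * g + q2 * c) + Δ * D : ℕ) : ℝ) ≤ ((C * v : ℕ) : ℝ) := by
      exact_mod_cast e4
    have e5 : ((T0 + Δ * D : ℕ) : ℝ) =
        (Q : ℝ) * s0 + ((q * t * cI + (n * n * g + q2 * c) + Δ * D : ℕ) : ℝ) := by
      rw [hT0]
      push_cast
      ring
    have e6 : (Q : ℝ) * s0 ≤ (l : ℝ) / (C2 k : ℝ) * ((C2 v : ℕ) : ℝ) := by
      have h1 : (0 : ℝ) ≤ (l : ℝ) / (C2 k : ℝ) := by positivity
      have h2 := mul_le_mul_of_nonneg_left hpairs.1 h1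
      rw [he0]
      linarith
    rw [e5]
    push_cast at e4' ⊢
    linarith
  have hhigh : (b : ℝ) ≤ ((T0 + Q * Δ : ℕ) : ℝ) := by
    refine hb2.trans ?_
    have hβ1 : beta k l ≤ l := by
      refine (beta_le k l (by omega)).trans (div_le_self (Nat.cast_nonneg _) ?_)
      have : (3 : ℝ) ≤ k := by exact_mod_cast hk
      linarith
    have hβ0 : 0 ≤ beta k l := le_trans (Nat.cast_nonneg _) (beta_ge k l (by omega))
    have e1 : Q * s1 ≤ T0 + Q * Δ := by
      have h1 : s1 = s0 + Δ := by omega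
      rw [h1, mul_add, hT0]
      omega
    have e2 : ((Q * s1 : ℕ) : ℝ) ≤ ((T0 + Q * Δ : ℕ) : ℝ) := by exact_mod_cast e1
    refine le_trans ?_ e2
    have e3 : ((Q * s1 : ℕ) : ℝ) = beta k l * ((Q : ℝ) * ((C2 m : ℕ) : ℝ)) := by
      push_cast
      rw [he1]
      ring
    have e4 : beta k l * ((C2 v : ℕ) : ℝ) ≤
        beta k l * ((Q : ℝ) * ((C2 m : ℕ) : ℝ) + ((R : ℝ) ^ 2 + 3 * W) * v) :=
      mul_le_mul_of_nonneg_left hpairs.2 hβ0
    have e5 : beta k l * (((R : ℝ) ^ 2 + 3 * W) * v) ≤ l * (((R : ℝ) ^ 2 + 3 * W) * v) :=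
      mul_le_mul_of_nonneg_right hβ1 (by positivity)
    have e6 : ((l * (R ^ 2 + 3 * W) : ℕ) : ℝ) ≤ (C : ℝ) := by
      have : l * (R ^ 2 + 3 * W) ≤ C := by
        rw [hC]
        exact Nat.le_add_left _ _
      exact_mod_cast this
    have e7 : ((l * (R ^ 2 + 3 * W) : ℕ) : ℝ) * v ≤ (C : ℝ) * v :=
      mul_le_mul_of_nonneg_right e6 (by linarith)
    rw [e3]
    push_cast at e7
    linarith
  have hlow' : T0 + Δ * D ≤ b := by exact_mod_cast hlow
  have hhigh' : b ≤ T0 + Q * Δ := by exact_mod_cast hhigh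
  obtain ⟨i, j, hi, hj, hb⟩ := int_rep hΔp hDΔ hlow' hhigh'
  have hjn : j ≤ n * n := by
    have h1 : Δ ≤ n := by omega
    have h2 : n ≤ n * n := Nat.le_mul_of_pos_left _ (by omega)
    omega
  have hfill := hole_fill hq2p.two_le (hn2 n (by omega)) hg hgD hc hjn
  rw [← hn, mul_comm w u] at hfill
  have hfin := t1_design hQ hs0 hs1 hs01.le hI hfill hi
  rw [← hvt] at hfin
  refine DC.cast hfin ?_
  rw [hb, hT0, hΔ]
  ring

end Pool.Agent.Helper69.QC
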