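import Pool.Agent.Helper69.QC.T2A

/-!
Project QC: orders `v` with `k - 1 ∣ v - 1`: the lower end up to a constant.
-/

set_option autoImplicit false

namespace Pool.Agent.Helper69.QC

open Pool.Agent.Helper69.WV Pool.Agent.Helper53.BN Pool.Agent.Helper69.QB

theorem adm_of_dvd {k l v : ℕ} (hk : 1 ≤ k) (h : k - 1 ∣ v - 1) : Adm k l v := by
  rcases Nat.even_or_odd k with h1 | h1
  · exact Or.inl h1
  · refine Or.inr (Even.mul_left ?_ _)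
    have h2 : Even (k - 1) := h1.tsub_odd odd_one
    exact (even_iff_two_dvd.2 ((even_iff_two_dvd.1 h2).trans h))

private theorem t2_count {k l M c1 Q0 m s0 A u : ℕ} (hk : 2 ≤ k) (hm : 1 ≤ m) (hM : 1 ≤ M)
    (h1 : c1 * (k * (k - 1)) = M * (M - 1) * A ^ 2 + 2 * (M * A * (u * (M - 1))))
    (h2 : Q0 * (m * (m - 1)) = (A + 1) * (A + 1 - 1))
    (h0 : (s0 : ℝ) = (l : ℝ) / (C2 k : ℝ) * ((C2 m : ℕ) : ℝ)) :
    (l : ℝ) * c1 + M * (Q0 * s0) = (l : ℝ) / (C2 k : ℝ) *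
      (((C2 (M * A + (u * (M - 1) + 1)) : ℕ) : ℝ) - ((C2 (u * (M - 1) + 1) : ℕ) : ℝ)) := by
  have hkr : (2 : ℝ) ≤ k := by exact_mod_cast hk
  have hCk : (C2 k : ℝ) = (k : ℝ) * ((k : ℝ) - 1) / 2 := C2_cast k
  have hCk0 : (C2 k : ℝ) ≠ 0 := by
    rw [hCk]
    have : (0 : ℝ) < (k : ℝ) * ((k : ℝ) - 1) := by nlinarith
    positivity
  have h1r : (c1 : ℝ) * ((k : ℝ) * ((k : ℝ) - 1)) =
      (M : ℝ) * ((M : ℝ) - 1) * (A : ℝ) ^ 2 + 2 * ((M : ℝ) * A * (u * ((M : ℝ) - 1))) := by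
    have h3 : ((c1 * (k * (k - 1)) : ℕ) : ℝ) =
        ((M * (M - 1) * A ^ 2 + 2 * (M * A * (u * (M - 1))) : ℕ) : ℝ) := by rw [h1]
    push_cast [Nat.cast_sub hM, Nat.cast_sub (by omega : 1 ≤ k)] at h3
    linarith
  have h2r : (Q0 : ℝ) * ((m : ℝ) * ((m : ℝ) - 1)) = ((A : ℝ) + 1) * A := by
    have h3 : ((Q0 * (m * (m - 1)) : ℕ) : ℝ) = (((A + 1) * (A + 1 - 1) : ℕ) : ℝ) := by rw [h2]
    rw [Nat.add_sub_cancel] at h3
    push_cast [Nat.cast_sub hm] at h3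
    linarith
  have e1 : (l : ℝ) * c1 = (l : ℝ) / (C2 k : ℝ) * ((C2 k : ℝ) * c1) := by
    field_simp
  have e2 : (M : ℝ) * (Q0 * s0) = (l : ℝ) / (C2 k : ℝ) * (M * (Q0 * ((C2 m : ℕ) : ℝ))) := by
    rw [h0]
    ring
  rw [e1, e2, ← mul_add]
  congr 1
  rw [hCk, C2_cast m, C2_cast, C2_cast]
  push_cast [Nat.cast_sub hM]
  linear_combination (1 / 2 : ℝ) * h1r + (M / 2 : ℝ) * h2r

/-- For the orders `v` with `k - 1 ∣ v - 1`: every number of blocks above the lower bound plus a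
constant. -/
theorem t2 (k l : ℕ) (hk : 3 ≤ k) (hl : 2 ≤ l) : ∃ C v₀ : ℕ, ∀ v, v₀ ≤ v → k - 1 ∣ v - 1 →
    ∀ b : ℕ, (l : ℝ) / (C2 k : ℝ) * ((C2 v : ℕ) : ℝ) + C ≤ b →
    (b : ℝ) ≤ beta k l * ((C2 v : ℕ) : ℝ) - C * v → NB k l v b := by
  obtain ⟨C1, v1', ht1⟩ := t1 k l hk hl
  obtain ⟨m, s0, s1, hmp, hm3, hmK, hs0, hs1, hs01, he0, he1⟩ := perfect_pair k l hk hl 3
  obtain ⟨nk, hnk⟩ := hTD k
  obtain ⟨q, hqp, hqB, hqE, -, hqK, hqR, hqR1, n1, hn1⟩ :=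
    rs_one m hmp.two_le (2 * (k - 1)) (nk + 3) (by omega)
  set w : ℕ := q - 1 with hw
  have hw0 : 0 < w := by omega
  have hkw : k - 1 ∣ w := (Dvd.intro_left _ rfl).trans hqE
  have hwK : w + 1 ∈ KS m 1 := by
    have : w + 1 = q := by omega
    rwa [this]
  obtain ⟨nw, hnw⟩ := hTD (w + 1)
  obtain ⟨M, hMB, hMK, hkM, hMu⟩ := choose_M k hk w (nw + 2) hw0 hkw
  obtain ⟨nM, hnM⟩ := hTD (M + 1)
  set δ : ℕ := s1 - s0 with hδ
  have hδp : 0 < δ := by omega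
  set Δ : ℕ := M * δ with hΔ
  have hΔp : 0 < Δ := Nat.mul_pos (by omega) hδp
  obtain ⟨q2, g, D, hq2p, hq2B, hg, hgD, hD, hDΔ⟩ := two_sizes k l hk hl Δ (M * w) hΔp
  obtain ⟨n2, hn2⟩ := hTD (q2 + 1)
  obtain ⟨v1, hv1⟩ := main k hk
  set U0 : ℕ := q2 * (n2 + v1 + Δ + 1) with hU0
  set U : ℕ := U0 + M * w * q2 with hU
  set K : ℕ := U * (M - 1) + 1 with hK
  set F : ℕ := K * K * g + q2 * (l * K ^ 2) + Δ * D with hF
  have hM0 : (0 : ℝ) < M := by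
    have : 0 < M := by omega
    exact_mod_cast this
  have hmr : (0 : ℝ) < m := by exact_mod_cast hmp.pos
  have hwr : (0 : ℝ) < w := by exact_mod_cast hw0
  have hδr : (0 : ℝ) < δ := by exact_mod_cast hδp
  obtain ⟨t1, htq⟩ := quad ((M : ℝ) * δ * (w : ℝ) ^ 2 / (m : ℝ) ^ 2) (C1 * (M * w))
    ((l : ℝ) / (C2 k : ℝ) * (K : ℝ) ^ 2 + C1 * K) (by positivity)
  set T : ℕ := nM + n1 + U + t1 + 1 with hT
  refine ⟨max F C1, M * w * T + K + v1' + 1, fun v hv hkv b hb1 hb2 => ?_⟩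
  have hv0 : 0 < v := by omega
  have hadm : Adm k l v := adm_of_dvd (by omega) hkv
  have hvr : (1 : ℝ) ≤ v := by exact_mod_cast hv0
  have hFmax : (F : ℝ) ≤ (max F C1 : ℕ) := by exact_mod_cast le_max_left _ _
  have hCmax : (C1 : ℝ) ≤ (max F C1 : ℕ) := by exact_mod_cast le_max_right _ _
  by_cases hbig : (l : ℝ) / (C2 k : ℝ) * ((C2 v : ℕ) : ℝ) + C1 * v ≤ b
  · refine ht1 v (by omega) hadm b hbig (hb2.trans ?_)
    have := mul_le_mul_of_nonneg_right hCmax (by linarith : (0 : ℝ) ≤ v)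
    linarith
  have hbig' := (not_le.1 hbig).le
  obtain ⟨u, hu1, hu2, hu3, hu4⟩ := pick_u (U0 := U0) (by omega) hw0 hq2p hq2B (hMu v hv0 hkv)
  have huU : u ≤ U := hu2.le
  have hM1p : 0 < M - 1 := by omega
  have huK : u * (M - 1) + 1 ≤ K := by
    have := Nat.mul_le_mul_right (M - 1) huU
    omega
  have hmul : (M - 1) * u = u * (M - 1) := mul_comm _ _
  obtain ⟨t, ht⟩ := (Nat.modEq_iff_dvd' (by omega : (M - 1) * u + 1 ≤ v)).1 hu3
  have hvt0 : v = (M - 1) * u + 1 + M * w * t := by omega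
  have hvt : v = M * (t * w) + (u * (M - 1) + 1) := by
    rw [hvt0]
    ring
  have htT : T ≤ t := by
    by_contra hcon
    have h1 : M * w * t ≤ M * w * T := Nat.mul_le_mul_left _ (not_le.1 hcon).le
    omega
  obtain ⟨n, hn⟩ := hu4
  have hnn : n2 + v1 + Δ + 1 ≤ n := by
    have h1 : q2 * (n2 + v1 + Δ + 1) ≤ q2 * n := by
      rw [← hn]
      have h2 : u ≤ (M - 1) * u := Nat.le_mul_of_pos_left _ hM1p
      omega
    exact Nat.le_of_mul_le_mul_left h1 hq2p.pos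
  have hadmn : Adm k l n := by
    rcases Nat.even_or_odd k with h1 | h1
    · exact Or.inl h1
    · have h2 : Even (k - 1) := h1.tsub_odd odd_one
      have h3 : Even (M - 1) := even_iff_two_dvd.2 ((even_iff_two_dvd.1 h2).trans hkM)
      have hodd : Odd ((M - 1) * u + 1) := (h3.mul_right u).add_one
      rw [hn] at hodd
      exact Or.inr (Even.mul_left ((Nat.odd_mul.1 hodd).2.tsub_odd odd_one) _)
  obtain ⟨c, hc⟩ := nb_of_ks (hv1 n (by omega) l hl hadmn)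
  -- the designs
  have htwK : t * w + 1 ∈ KS m 1 := ks_of_rs (fill1 glue) (hn1 t (by omega)) hwK
  obtain ⟨Q0, hQ0⟩ := nb_of_ks htwK
  obtain ⟨c1, hc1⟩ := t2_base (by omega : 2 ≤ M) hMK (ks_one_trans hmK hwK) (hnk w (by omega))
    (hnw M (by omega)) (hnM t (by omega)) (by omega : u ≤ t)
  have hcnt1 := count_hol hc1
  have hcnt2 := count_nb hQ0
  have hcount := t2_count (l := l) (s0 := s0) (by omega) hmp.one_le (by omega) hcnt1 hcnt2 he0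
  rw [← hvt] at hcount
  have hρ : (0 : ℝ) ≤ (l : ℝ) / (C2 k : ℝ) := by positivity
  have hCh : ((C2 (u * (M - 1) + 1) : ℕ) : ℝ) ≤ (K : ℝ) ^ 2 := by
    have h1 : ((u * (M - 1) + 1 : ℕ) : ℝ) ≤ K := by exact_mod_cast huK
    have h2 : (0 : ℝ) ≤ ((u * (M - 1) + 1 : ℕ) : ℝ) := Nat.cast_nonneg _
    rw [C2_cast]
    nlinarith
  have hCh0 : (0 : ℝ) ≤ ((C2 (u * (M - 1) + 1) : ℕ) : ℝ) := Nat.cast_nonneg _
  set T0 : ℕ := l * c1 + M * (Q0 * s0) + (n * n * g + q2 * c) with hT0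
  have hlow : ((T0 + Δ * D : ℕ) : ℝ) ≤ (b : ℝ) := by
    refine le_trans ?_ hb1
    have hnK : n ≤ K := by
      have h3 : n ≤ q2 * n := Nat.le_mul_of_pos_left _ hq2p.pos
      omega
    have hcb : c ≤ l * K ^ 2 :=
      (nb_bound hc).trans (Nat.mul_le_mul_left _ (Nat.pow_le_pow_left hnK 2))
    have e1 : n * n * g ≤ K * K * g := Nat.mul_le_mul_right _ (Nat.mul_le_mul hnK hnK)
    have e2 : q2 * c ≤ q2 * (l * K ^ 2) := Nat.mul_le_mul_left _ hcb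
    have e4 : n * n * g + q2 * c + Δ * D ≤ F := by omega
    have e4' : ((n * n * g + q2 * c + Δ * D : ℕ) : ℝ) ≤ (F : ℝ) := by exact_mod_cast e4
    have e5 : ((T0 + Δ * D : ℕ) : ℝ) =
        ((l : ℝ) * c1 + M * (Q0 * s0)) + ((n * n * g + q2 * c + Δ * D : ℕ) : ℝ) := by
      rw [hT0]
      push_cast
      ring
    rw [e5, hcount]
    have e6 : (0 : ℝ) ≤ (l : ℝ) / (C2 k : ℝ) * ((C2 (u * (M - 1) + 1) : ℕ) : ℝ) :=
      mul_nonneg hρ hCh0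
    rw [mul_sub]
    linarith
  have hhigh : (b : ℝ) ≤ ((T0 + Q0 * Δ : ℕ) : ℝ) := by
    refine hbig'.trans ?_
    have e1 : ((l * c1 + M * (Q0 * s0) + Q0 * Δ : ℕ) : ℝ) ≤ ((T0 + Q0 * Δ : ℕ) : ℝ) := by
      have : l * c1 + M * (Q0 * s0) + Q0 * Δ ≤ T0 + Q0 * Δ := by omega
      exact_mod_cast this
    refine le_trans ?_ e1
    have e2 : ((l * c1 + M * (Q0 * s0) + Q0 * Δ : ℕ) : ℝ) =
        ((l : ℝ) * c1 + M * (Q0 * s0)) + (Q0 : ℝ) * (M * δ) := by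
      rw [hΔ]
      push_cast
      ring
    rw [e2, hcount, mul_sub]
    have e3 : (l : ℝ) / (C2 k : ℝ) * ((C2 (u * (M - 1) + 1) : ℕ) : ℝ) ≤
        (l : ℝ) / (C2 k : ℝ) * (K : ℝ) ^ 2 := mul_le_mul_of_nonneg_left hCh hρ
    have e4 : ((t : ℝ) * w) ^ 2 ≤ (Q0 : ℝ) * (m : ℝ) ^ 2 := by
      have h1 : (t * w) ^ 2 ≤ Q0 * m ^ 2 := by
        calc (t * w) ^ 2 ≤ (t * w + 1) * (t * w + 1 - 1) := by
              rw [Nat.add_sub_cancel]
              nlinarith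
          _ = Q0 * (m * (m - 1)) := hcnt2.symm
          _ ≤ Q0 * (m * m) := Nat.mul_le_mul_left _ (Nat.mul_le_mul_left _ (Nat.sub_le _ _))
          _ = Q0 * m ^ 2 := by ring
      exact_mod_cast h1
    have e5 : (M : ℝ) * δ * (w : ℝ) ^ 2 / (m : ℝ) ^ 2 * (t : ℝ) ^ 2 ≤ (Q0 : ℝ) * (M * δ) := by
      rw [div_mul_eq_mul_div, div_le_iff₀ (by positivity)]
      have h2 : (M : ℝ) * δ * (((t : ℝ) * w) ^ 2) ≤ M * δ * ((Q0 : ℝ) * (m : ℝ) ^ 2) :=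
        mul_le_mul_of_nonneg_left e4 (by positivity)
      nlinarith
    have e6 := htq t (by omega)
    have e7 : (v : ℝ) ≤ M * w * t + K := by
      have h1 : v ≤ M * w * t + K := by
        rw [hvt0]
        omega
      exact_mod_cast h1
    have e8 : (C1 : ℝ) * v ≤ C1 * (M * w * t + K) :=
      mul_le_mul_of_nonneg_left e7 (Nat.cast_nonneg _)
    nlinarith
  have hlow' : T0 + Δ * D ≤ b := by exact_mod_cast hlow
  have hhigh' : b ≤ T0 + Q0 * Δ := by exact_mod_cast hhigh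
  obtain ⟨i, j, hi, hj, hb⟩ := int_rep hΔp hDΔ hlow' hhigh'
  have hjn : j ≤ n * n := by
    have h1 : Δ ≤ n := by omega
    have h2 : n ≤ n * n := Nat.le_mul_of_pos_left _ (by omega)
    omega
  have hfill := hole_fill hq2p.two_le (hn2 n (by omega)) hg hgD hc hjn
  rw [← hn, mul_comm (M - 1) u] at hfill
  have hfin := t2_design hc1 hs0 hs1 hs01.le hQ0 hi hfill
  rw [← hvt] at hfin
  refine DC.cast hfin ?_
  rw [hb, hT0, hΔ, hδ]
  ring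

end Pool.Agent.Helper69.QC
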