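import Pool.Agent.Helper69.QC.T4
import Pool.Agent.Helper69.QC.Copies

/-!
Project QC: Steiner systems with a hole of bounded size.
-/

set_option autoImplicit false

namespace Pool.Agent.Helper69.QC

open Pool.Agent.Helper69.WV Pool.Agent.Helper53.BN Pool.Agent.Helper69.QB

/-- Steiner systems with the block size of a Steiner system. -/
theorem ks_one_trans {k m v : ℕ} (hm : m ∈ KS k 1) (hv : v ∈ KS m 1) : v ∈ KS k 1 := by
  obtain ⟨s, hs⟩ := nb_of_ks hm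
  obtain ⟨Q, hQ⟩ := nb_of_ks hv
  exact nb_ks (subst (i := 0) hQ hs hs le_rfl (Nat.zero_le _))

/-- The choice of the order `M = k p` with `gcd (M - 1, M w) = k - 1`. -/
theorem choose_M (k : ℕ) (hk : 3 ≤ k) (w B : ℕ) (hw : 0 < w) (hkw : k - 1 ∣ w) :
    ∃ M, B ≤ M ∧ M ∈ KS k 1 ∧ k - 1 ∣ M - 1 ∧
      ∀ v, 0 < v → k - 1 ∣ v - 1 → ∃ u, (M - 1) * u + 1 ≡ v [MOD M * w] := by
  obtain ⟨q0, hq0⟩ := steiner_primes k (by omega)
  obtain ⟨n0, hn0⟩ := hTD k
  have hkk : 0 < k * (k - 1) := Nat.mul_pos (by omega) (by omega)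
  obtain ⟨p, hpB, hpp, hp1⟩ := Nat.forall_exists_prime_gt_and_modEq (q0 + n0 + B + 1)
    (Nat.mul_pos hkk hw).ne' (Nat.coprime_one_left (k * (k - 1) * w))
  have hpk : p ≡ 1 [MOD k * (k - 1)] := hp1.of_dvd (Dvd.intro _ rfl)
  have hpw : p ≡ 1 [MOD w] := hp1.of_dvd (Dvd.intro_left _ rfl)
  have hpK : p ∈ KS k 1 := hq0 p hpp (by omega) hpk
  have hM : k * p ∈ KS k 1 :=
    cMul (KS k 1) (closedK glue k 1) k p (self_ks (by omega) 1) hpK (hn0 p (by omega))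
  have hpM : p ≤ k * p := Nat.le_mul_of_pos_left _ (by omega)
  have hM0 : 0 < k * p := Nat.mul_pos (by omega) hpp.pos
  have hMw : k * p - 1 ≡ k - 1 [MOD w] := by
    have h1 : k * p - 1 + 1 ≡ k - 1 + 1 [MOD w] := by
      rw [Nat.sub_add_cancel hM0, Nat.sub_add_cancel (by omega : 1 ≤ k)]
      simpa using hpw.mul_left k
    exact Nat.ModEq.add_right_cancel' 1 h1
  have hgcd : Nat.gcd (k * p - 1) w = k - 1 := by
    rw [hMw.gcd_eq]
    exact Nat.gcd_eq_left hkw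
  have hκ : 0 < k - 1 := by omega
  have hdM : k - 1 ∣ k * p - 1 := by
    rw [← hgcd]
    exact Nat.gcd_dvd_left _ _
  refine ⟨k * p, by omega, hM, hdM, fun v hv hkv => ?_⟩
  obtain ⟨M', hM'⟩ := hdM
  obtain ⟨w', hw'⟩ := hkw
  obtain ⟨v', hv'⟩ := hkv
  have hc1 : Nat.Coprime M' w' := by
    rw [hM', hw', Nat.gcd_mul_left] at hgcd
    have h1 : (k - 1) * Nat.gcd M' w' = (k - 1) * 1 := by rw [hgcd, mul_one]
    exact Nat.eq_of_mul_eq_mul_left hκ h1
  have hc2 : Nat.Coprime M' (k * p) := by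
    have h1 : Nat.Coprime (k * p - 1) (k * p) := by
      have h2 : k * p - 1 + 1 = k * p := Nat.sub_add_cancel hM0
      nth_rewrite 2 [← h2]
      exact (Nat.coprime_self_add_right).2 (Nat.coprime_one_right _)
    exact Nat.Coprime.coprime_dvd_left (Dvd.intro_left (k - 1) hM'.symm) h1
  have hw'0 : 0 < w' := Nat.pos_of_ne_zero fun h => by
    rw [h, mul_zero] at hw'
    omega
  obtain ⟨u, hu⟩ := meetsAll_div (k * p * w') M' v' (Nat.mul_pos hM0 hw'0) (hc2.mul_right hc1)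
  refine ⟨u, ?_⟩
  have h1 : (k - 1) * (M' * u) ≡ (k - 1) * v' [MOD (k - 1) * (k * p * w')] :=
    Nat.ModEq.mul_left' (k - 1) hu
  have h2 := h1.add_right 1
  rw [← mul_assoc (k - 1) M' u, ← hM', ← hv', Nat.sub_add_cancel hv] at h2
  have h3 : k * p * w = (k - 1) * (k * p * w') := by
    rw [hw']
    ring
  rw [h3]
  exact h2

/-- The designs of the second theorem. -/
theorem t2_design {k l M w t u m s0 s1 Q0 c1 cL i : ℕ}
    (hB : DC k 1 c1 (hol M (t * w) (u * (M - 1))))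
    (hs0 : NB k l m s0) (hs1 : NB k l m s1) (hs : s0 ≤ s1) (hQ : NB m 1 (t * w + 1) Q0)
    (hi : i ≤ Q0) (hL : NB k l (u * (M - 1) + 1) cL) :
    NB k l (M * (t * w) + (u * (M - 1) + 1))
      (l * c1 + M * (Q0 * s0 + i * (s1 - s0)) + cL) := by
  have h1 := copies hB l
  rw [← mul_one (t * w)] at h1
  have h2 := fillH h1 ((hol_small le_rfl).2 (subst hQ hs0 hs1 hs hi))
  exact closeH h2 hL

/-- The base designs. -/
theorem t2_base {k M w t u : ℕ} (hM2 : 2 ≤ M) (hM : M ∈ KS k 1)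
    (hw : w + 1 ∈ KS k 1) (hTw : TD k w) (hTM : TD (w + 1) M) (hT : TD (M + 1) t) (hu : u ≤ t) :
    ∃ c1, DC k 1 c1 (hol M (t * w) (u * (M - 1))) := by
  obtain ⟨c0, hc0⟩ := DD.dc (ks_rs inflate hM hTw)
  obtain ⟨cB, hcB⟩ := DD.dc (holeGroup glue k 1 w M hw hM (by omega) hTM)
  exact ⟨_, truncH (i := 0) hM2 hu hT hc0 hc0 (Or.inr hcB) (Nat.zero_le _)⟩

end Pool.Agent.Helper69.QC
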